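import Pool.Agent.Lib.Ulam.Defs

/-!
Module AVG of MP_9dddc4_co: averaging over permutations.
-/

open Finset

namespace Ulam

namespace Avg

/-- some permutation carries a `k`-set to a given `k`-set -/
theorem exists_perm {α : Type*} [Fintype α] [DecidableEq α] {h h' : Finset α}
    (hh : h.card = h'.card) : ∃ τ : Equiv.Perm α, h.image τ = h' := by
  classical
  let e : {x // x ∈ h} ≃ {x // x ∈ h'} := Finset.equivOfCardEq hh
  refine ⟨e.extendSubtype, ?_⟩
  apply Finset.eq_of_subset_of_card_le
  · intro y hy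
    obtain ⟨x, hx, rfl⟩ := Finset.mem_image.1 hy
    exact e.extendSubtype_mem x hx
  · rw [Finset.card_image_of_injective _ e.extendSubtype.injective, hh]

/-- the permutations carrying `h` to `h'` -/
def carry {α : Type*} [Fintype α] [DecidableEq α] (h h' : Finset α) : Finset (Equiv.Perm α) :=
  (univ : Finset (Equiv.Perm α)).filter (fun σ : Equiv.Perm α => h.image (fun x => σ x) = h')

theorem mem_carry {α : Type*} [Fintype α] [DecidableEq α] {h h' : Finset α} {σ : Equiv.Perm α} :
    σ ∈ carry h h' ↔ h.image (fun x => σ x) = h' := by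
  simp [carry]

theorem image_mul {α : Type*} [DecidableEq α] (τ σ : Equiv.Perm α) (h : Finset α) :
    h.image (fun x => (τ * σ) x) = (h.image (fun x => σ x)).image (fun x => τ x) := by
  rw [Finset.image_image]; rfl

theorem card_fiber_eq {α : Type*} [Fintype α] [DecidableEq α] {h h' h'' : Finset α}
    (hh : h'.card = h''.card) : (carry h h').card = (carry h h'').card := by
  obtain ⟨τ, hτ⟩ := exists_perm hh
  have hτ' : h''.image (fun x => τ⁻¹ x) = h' := by
    rw [← hτ, Finset.image_image]
    have : ((fun x => τ⁻¹ x) ∘ fun x => τ x) = id := by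
      funext x; simp
    have h2 : ((fun x => τ⁻¹ x) ∘ ⇑τ) = id := this
    rw [h2, Finset.image_id]
  refine Finset.card_bij (fun σ _ => τ * σ) ?_ ?_ ?_
  · intro σ hσ
    rw [mem_carry] at hσ ⊢
    rw [image_mul, hσ]
    exact hτ
  · intro σ _ σ' _ hh
    exact mul_left_cancel hh
  · intro σ hσ
    rw [mem_carry] at hσ
    refine ⟨τ⁻¹ * σ, ?_, by group⟩
    rw [mem_carry, image_mul, hσ, hτ']

/-- the number of permutations carrying a `k`-set to a given `k`-set -/
theorem card_perm_image {α : Type*} [Fintype α] [DecidableEq α] {k : ℕ} {h h' : Finset α}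
    (hh : h.card = k) (hh' : h'.card = k) :
    (carry h h').card * (Fintype.card α).choose k = (Fintype.card α).factorial := by
  have h1 : (univ : Finset (Equiv.Perm α)).card =
      ∑ g ∈ powersetCard k (univ : Finset α), (carry h g).card := by
    apply Finset.card_eq_sum_card_fiberwise
    intro σ _
    simp only [Finset.mem_coe, Finset.mem_powersetCard]
    exact ⟨Finset.subset_univ _, by rw [Finset.card_image_of_injective _ σ.injective, hh]⟩
  have h2 : ∑ g ∈ powersetCard k (univ : Finset α), (carry h g).card =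
      ∑ g ∈ powersetCard k (univ : Finset α), (carry h h').card := by
    apply Finset.sum_congr rfl
    intro g hg
    apply card_fiber_eq
    rw [(Finset.mem_powersetCard.1 hg).2, hh']
  rw [h2, Finset.sum_const, Finset.card_powersetCard, Finset.card_univ, Finset.card_univ,
    Fintype.card_perm, smul_eq_mul] at h1
  rw [h1, mul_comm]

/-- averaging principle -/
theorem exists_avg {ι : Type*} [Fintype ι] [Nonempty ι] (f : ι → ℕ) (a : ℕ)
    (h : Fintype.card ι * a ≤ ∑ i, f i) : ∃ i, a ≤ f i := by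
  by_contra hcon
  push Not at hcon
  have : ∑ i, f i < ∑ _i : ι, a := by
    apply Finset.sum_lt_sum_of_nonempty Finset.univ_nonempty
    intro i _
    exact hcon i
  rw [Finset.sum_const, Finset.card_univ, smul_eq_mul] at this
  omega

variable {n : ℕ}

/-- the number of subsets meeting `h` exactly in `{v}` -/
theorem card_pick {h : Finset (Fin n)} {v : Fin n} (hv : v ∈ h) (hc : h.card = 3) :
    ((univ : Finset (Finset (Fin n))).filter (fun P => h ∩ P = {v})).card * 8 = 2 ^ n := by
  have h1 : (univ : Finset (Finset (Fin n))).filter (fun P => h ∩ P = {v}) =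
      (powerset (univ \ h)).image (fun Q => insert v Q) := by
    ext P
    simp only [Finset.mem_filter, Finset.mem_univ, true_and, Finset.mem_image,
      Finset.mem_powerset]
    constructor
    · intro hP
      have hvP : v ∈ P := by
        have : v ∈ h ∩ P := by rw [hP]; exact Finset.mem_singleton_self v
        exact (Finset.mem_inter.1 this).2
      refine ⟨P.erase v, ?_, Finset.insert_erase hvP⟩
      intro x hx
      rw [Finset.mem_erase] at hx
      rw [Finset.mem_sdiff]
      refine ⟨Finset.mem_univ _, fun hxh => hx.1 ?_⟩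
      have : x ∈ h ∩ P := Finset.mem_inter.2 ⟨hxh, hx.2⟩
      rw [hP] at this
      exact Finset.mem_singleton.1 this
    · rintro ⟨Q, hQ, rfl⟩
      ext x
      simp only [Finset.mem_inter, Finset.mem_insert, Finset.mem_singleton]
      constructor
      · rintro ⟨hxh, hx⟩
        rcases hx with hx | hx
        · exact hx
        · exact absurd hxh (Finset.mem_sdiff.1 (hQ hx)).2
      · rintro rfl
        exact ⟨hv, Or.inl rfl⟩
  rw [h1, Finset.card_image_of_injOn, Finset.card_powerset, Finset.card_sdiff_of_subset (Finset.subset_univ _),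
    Finset.card_univ, Fintype.card_fin, hc]
  · have h3 : 3 ≤ n := by
      rw [← hc]
      calc h.card ≤ (univ : Finset (Fin n)).card := Finset.card_le_card (Finset.subset_univ _)
        _ = n := by simp
    obtain ⟨m, rfl⟩ := Nat.exists_eq_add_of_le h3
    rw [Nat.add_sub_cancel_left]
    ring
  · intro Q hQ Q' hQ' hEq
    have hvQ : v ∉ Q := fun hm =>
      (Finset.mem_sdiff.1 ((Finset.mem_powerset.1 (Finset.mem_coe.1 hQ)) hm)).2 hv
    have hvQ' : v ∉ Q' := fun hm =>
      (Finset.mem_sdiff.1 ((Finset.mem_powerset.1 (Finset.mem_coe.1 hQ')) hm)).2 hv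
    have : (insert v Q).erase v = (insert v Q').erase v := by
      simp only at hEq
      rw [hEq]
    rwa [Finset.erase_insert hvQ, Finset.erase_insert hvQ'] at this

theorem sum_deg3 {H : Hyp n} (h3 : Is3 H) : ∑ v, deg H v = 3 * H.card := by
  unfold deg
  simp_rw [Finset.card_filter]
  rw [Finset.sum_comm]
  have : ∀ h ∈ H, (∑ v : Fin n, if v ∈ h then 1 else 0) = 3 := by
    intro h hh
    rw [← Finset.card_filter]
    rw [← h3 h hh]
    congr 1
    ext x
    simp
  rw [Finset.sum_congr rfl this, Finset.sum_const, smul_eq_mul, mul_comm]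

/-- the rough part -/
theorem rough_part {e d : ℕ} {H : Hyp n} (h3 : Is3 H) (he : H.card = e)
    (hr : 3 * e ≤ 4 * (H.filter (fun h => ∃ v ∈ h, d < deg H v)).card) :
    ∃ (W : Finset (Fin n)) (R : Hyp n), R ⊆ H ∧ (∀ h ∈ R, (h ∩ W).card = 1) ∧
      3 * e ≤ 32 * R.card ∧ W.card * d ≤ 3 * e := by
  classical
  set R0 := H.filter (fun h => ∃ v ∈ h, d < deg H v) with hR0
  by_cases hn : R0 = ∅
  · refine ⟨∅, ∅, by simp, by simp, ?_, by simp⟩
    rw [hn] at hr
    simp at hr
    simp [hr]
  have hsel : ∀ h ∈ R0, ∃ v ∈ h, d < deg H v := fun h hh => (Finset.mem_filter.1 hh).2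
  obtain ⟨h0, hh0⟩ := Finset.nonempty_iff_ne_empty.2 hn
  obtain ⟨v0, _, _⟩ := hsel h0 hh0
  have hne : Nonempty (Fin n) := ⟨v0⟩
  choose! v hv1 hv2 using hsel
  have key : Fintype.card (Finset (Fin n)) * R0.card ≤
      ∑ P : Finset (Fin n), (R0.filter (fun h => h ∩ P = {v h})).card * 8 := by
    have h4 : ∑ P : Finset (Fin n), (R0.filter (fun h => h ∩ P = {v h})).card * 8 =
        ∑ h ∈ R0, ((univ : Finset (Finset (Fin n))).filter (fun P => h ∩ P = {v h})).card * 8 := by
      rw [← Finset.sum_mul, ← Finset.sum_mul]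
      congr 1
      simp_rw [Finset.card_filter]
      rw [Finset.sum_comm]
    rw [h4]
    have h5 : ∀ h ∈ R0,
        ((univ : Finset (Finset (Fin n))).filter (fun P => h ∩ P = {v h})).card * 8 = 2 ^ n := by
      intro h hh
      exact card_pick (hv1 h hh) (h3 h (Finset.mem_filter.1 hh).1)
    rw [Finset.sum_congr rfl h5, Finset.sum_const, smul_eq_mul]
    simp only [Fintype.card_finset, Fintype.card_fin]
    rw [mul_comm]
  obtain ⟨P, hP⟩ := exists_avg _ _ key
  refine ⟨P.filter (fun x => d < deg H x), R0.filter (fun h => h ∩ P = {v h}),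
    (Finset.filter_subset _ _).trans (Finset.filter_subset _ _), ?_, ?_, ?_⟩
  · intro h hh
    obtain ⟨hhR, hhP⟩ := Finset.mem_filter.1 hh
    have : h ∩ P.filter (fun x => d < deg H x) = {v h} := by
      ext x
      simp only [Finset.mem_inter, Finset.mem_filter, Finset.mem_singleton]
      constructor
      · rintro ⟨hx, hxP, _⟩
        have : x ∈ h ∩ P := Finset.mem_inter.2 ⟨hx, hxP⟩
        rw [hhP] at this
        exact Finset.mem_singleton.1 this
      · rintro rfl
        have : v h ∈ h ∩ P := by rw [hhP]; exact Finset.mem_singleton_self _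
        exact ⟨(Finset.mem_inter.1 this).1, (Finset.mem_inter.1 this).2, hv2 h hhR⟩
    rw [this, Finset.card_singleton]
  · omega
  · calc (P.filter (fun x => d < deg H x)).card * d
        = ∑ _x ∈ P.filter (fun x => d < deg H x), d := by rw [Finset.sum_const, smul_eq_mul]
      _ ≤ ∑ x ∈ P.filter (fun x => d < deg H x), deg H x :=
          Finset.sum_le_sum (fun x hx => (Finset.mem_filter.1 hx).2.le)
      _ ≤ ∑ x, deg H x := Finset.sum_le_univ_sum_of_nonneg (fun _ => Nat.zero_le _)
      _ = 3 * e := by rw [sum_deg3 h3, he]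

theorem com_symm {H1 H2 : Hyp n} {s : ℕ} (h : Com H1 H2 s) : Com H2 H1 s := by
  classical
  obtain ⟨F, f, hF, hs, hf, hfF⟩ := h
  rcases Finset.eq_empty_or_nonempty (verts F) with hV | hV
  · -- no vertices: all members of `F` are empty
    have hall : ∀ h ∈ F, h = ∅ := by
      intro h hh
      apply Finset.eq_empty_of_forall_notMem
      intro x hx
      have : x ∈ verts F := Finset.mem_biUnion.2 ⟨h, hh, hx⟩
      rw [hV] at this
      exact absurd this (Finset.notMem_empty x)
    refine ⟨F, id, ?_, hs, ?_, ?_⟩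
    · intro h hh
      have := hfF h hh
      rw [hall h hh] at this ⊢
      simpa using this
    · exact Function.injective_id.injOn
    · intro h hh
      rw [Finset.image_id]
      exact hF hh
  · obtain ⟨x0, _⟩ := hV
    have hne : Nonempty (Fin n) := ⟨x0⟩
    let g := Function.invFunOn f (verts F : Set (Fin n))
    have hsub : ∀ h ∈ F, (h : Set (Fin n)) ⊆ (verts F : Set (Fin n)) := by
      intro h hh x hx
      exact Finset.mem_coe.2 (Finset.mem_biUnion.2 ⟨h, hh, hx⟩)
    have hg : ∀ x ∈ verts F, g (f x) = x := fun x hx =>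
      Function.invFunOn_apply_eq (f := f) (s := (verts F : Set (Fin n))) hx |> fun _ =>
        hf.leftInvOn_invFunOn (Finset.mem_coe.2 hx)
    have hgi : ∀ h ∈ F, (h.image f).image g = h := by
      intro h hh
      rw [Finset.image_image]
      have : ∀ x ∈ h, (g ∘ f) x = x := fun x hx => hg x (Finset.mem_coe.1 (hsub h hh hx))
      rw [Finset.image_congr (g := id) (fun x hx => this x hx), Finset.image_id]
    refine ⟨F.image (fun h => h.image f), g, ?_, ?_, ?_, ?_⟩
    · intro k hk
      obtain ⟨h, hh, rfl⟩ := Finset.mem_image.1 hk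
      exact hfF h hh
    · rw [Finset.card_image_of_injOn]
      · exact hs
      · intro h hh k hk hEq
        simp only at hEq
        rw [← hgi h hh, ← hgi k hk, hEq]
    · intro x hx y hy hxy
      have hx' : x ∈ verts (F.image (fun h => h.image f)) := hx
      have hy' : y ∈ verts (F.image (fun h => h.image f)) := hy
      have aux : ∀ z ∈ verts (F.image (fun h => h.image f)), ∃ w ∈ verts F, f w = z := by
        intro z hz
        obtain ⟨k, hk, hzk⟩ := Finset.mem_biUnion.1 hz
        obtain ⟨h, hh, rfl⟩ := Finset.mem_image.1 hk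
        obtain ⟨w, hw, rfl⟩ := Finset.mem_image.1 hzk
        exact ⟨w, Finset.mem_biUnion.2 ⟨h, hh, hw⟩, rfl⟩
      obtain ⟨a, ha, rfl⟩ := aux x hx'
      obtain ⟨b, hb, rfl⟩ := aux y hy'
      rw [hg a ha, hg b hb] at hxy
      rw [hxy]
    · intro k hk
      obtain ⟨h, hh, rfl⟩ := Finset.mem_image.1 hk
      rw [hgi h hh]
      exact hF hh

/-- the common part of two rough hypergraphs -/
theorem core {H1 H2 R1 R2 : Hyp n} {W1 W2 : Finset (Fin n)} (h1 : Is3 H1) (h2 : Is3 H2)
    (hR1 : R1 ⊆ H1) (hR2 : R2 ⊆ H2) (hW1 : ∀ h ∈ R1, (h ∩ W1).card = 1)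
    (hW2 : ∀ h ∈ R2, (h ∩ W2).card = 1) (hle : W1.card ≤ W2.card) :
    ∃ s, Com H1 H2 s ∧ R1.card * R2.card ≤ s * (W2.card * n.choose 2) := by
  classical
  have hemb : Nonempty ({x // x ∈ W1} ↪ {x // x ∈ W2}) := by
    apply Function.Embedding.nonempty_of_card_le
    simpa using hle
  obtain ⟨ι⟩ := hemb
  -- the map
  let f : Equiv.Perm {x // x ∈ W2} → Equiv.Perm (Fin n) → Fin n → Fin n := fun ρ σ x =>
    if hx : x ∈ W1 then (ρ (ι ⟨x, hx⟩) : Fin n) else σ x
  have hfW : ∀ ρ σ x, x ∈ W1 → f ρ σ x ∈ W2 := by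
    intro ρ σ x hx
    simp only [f, hx, dif_pos]
    exact (ρ (ι ⟨x, hx⟩)).2
  have hfN : ∀ ρ σ x, x ∉ W1 → f ρ σ x = σ x := by
    intro ρ σ x hx
    simp [f, hx]
  let Good : Equiv.Perm {x // x ∈ W2} × Equiv.Perm (Fin n) → Finset (Fin n) → Finset (Fin n) →
      Prop := fun c h h' =>
    (h ∩ W1).image (f c.1 c.2) = h' ∩ W2 ∧ (h \ W1).image (f c.1 c.2) = h' \ W2
  let F : Equiv.Perm {x // x ∈ W2} × Equiv.Perm (Fin n) → Hyp n := fun c =>
    R1.filter (fun h => ∃ h' ∈ R2, Good c h h')
  have hgoodimg : ∀ c h h', Good c h h' → h.image (f c.1 c.2) = h' := by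
    rintro c h h' ⟨ha, hb⟩
    conv_lhs => rw [← Finset.sdiff_union_inter h W1]
    rw [Finset.image_union, ha, hb]
    exact Finset.sdiff_union_inter h' W2
  -- counting
  have hcount : ∀ c, (F c).card = ∑ h ∈ R1, ∑ h' ∈ R2, if Good c h h' then 1 else 0 := by
    intro c
    simp only [F]
    rw [Finset.card_filter]
    apply Finset.sum_congr rfl
    intro h _
    by_cases hex : ∃ h' ∈ R2, Good c h h'
    · rw [if_pos hex]
      obtain ⟨h', hh', hg⟩ := hex
      rw [Finset.sum_eq_single h']
      · rw [if_pos hg]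
      · intro k _ hk
        rw [if_neg]
        intro hgk
        exact hk ((hgoodimg c h k hgk).symm.trans (hgoodimg c h h' hg))
      · intro hn; exact absurd hh' hn
    · rw [if_neg hex]
      symm
      apply Finset.sum_eq_zero
      intro k hk
      rw [if_neg]
      exact fun hg => hex ⟨k, hk, hg⟩
  have hnum : ∀ h ∈ R1, ∀ h' ∈ R2,
      ((univ : Finset (Equiv.Perm {x // x ∈ W2} × Equiv.Perm (Fin n))).filter
        (fun c => Good c h h')).card * (W2.card * n.choose 2) =
        (W2.card).factorial * n.factorial := by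
    intro h hh h' hh'
    obtain ⟨v, hv⟩ := Finset.card_eq_one.1 (hW1 h hh)
    obtain ⟨w, hw⟩ := Finset.card_eq_one.1 (hW2 h' hh')
    have hvW : v ∈ W1 := by
      have : v ∈ h ∩ W1 := by rw [hv]; exact Finset.mem_singleton_self v
      exact (Finset.mem_inter.1 this).2
    have hwW : w ∈ W2 := by
      have : w ∈ h' ∩ W2 := by rw [hw]; exact Finset.mem_singleton_self w
      exact (Finset.mem_inter.1 this).2
    have hset : (univ : Finset (Equiv.Perm {x // x ∈ W2} × Equiv.Perm (Fin n))).filter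
        (fun c => Good c h h') =
        (carry {ι ⟨v, hvW⟩} {(⟨w, hwW⟩ : {x // x ∈ W2})}) ×ˢ (carry (h \ W1) (h' \ W2)) := by
      ext ⟨ρ, σ⟩
      simp only [Finset.mem_filter, Finset.mem_univ, true_and, Finset.mem_product, mem_carry, Good]
      rw [hv, hw]
      apply and_congr
      · rw [Finset.image_singleton, Finset.image_singleton]
        simp only [Finset.singleton_inj]
        simp only [f, hvW, dif_pos]
        constructor
        · intro hEq; exact Subtype.ext hEq
        · intro hEq; rw [hEq]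
      · have : (h \ W1).image (f ρ σ) = (h \ W1).image (fun x => σ x) := by
          apply Finset.image_congr
          intro x hx
          exact hfN ρ σ x (Finset.mem_sdiff.1 (Finset.mem_coe.1 hx)).2
        rw [this]
    rw [hset, Finset.card_product]
    have e1 := card_perm_image (α := {x // x ∈ W2}) (k := 1) (h := {ι ⟨v, hvW⟩})
      (h' := {(⟨w, hwW⟩ : {x // x ∈ W2})}) (Finset.card_singleton _) (Finset.card_singleton _)
    have c1 : (h \ W1).card = 2 := by
      have := Finset.card_inter_add_card_sdiff h W1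
      have h3 := h1 h (hR1 hh)
      have h4 := hW1 h hh
      omega
    have c2 : (h' \ W2).card = 2 := by
      have := Finset.card_inter_add_card_sdiff h' W2
      have h3 := h2 h' (hR2 hh')
      have h4 := hW2 h' hh'
      omega
    have e2 := card_perm_image (α := Fin n) (k := 2) c1 c2
    rw [Fintype.card_fin] at e2
    rw [Nat.choose_one_right] at e1
    rw [Fintype.card_coe] at e1
    calc _ = ((carry {ι ⟨v, hvW⟩} {(⟨w, hwW⟩ : {x // x ∈ W2})}).card * W2.card) *
          ((carry (h \ W1) (h' \ W2)).card * n.choose 2) := by ring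
      _ = _ := by rw [e1, e2]
  have key : Fintype.card (Equiv.Perm {x // x ∈ W2} × Equiv.Perm (Fin n)) *
      (R1.card * R2.card) ≤ ∑ c, (F c).card * (W2.card * n.choose 2) := by
    have h4 : ∑ c, (F c).card * (W2.card * n.choose 2) =
        ∑ h ∈ R1, ∑ h' ∈ R2,
          ((univ : Finset (Equiv.Perm {x // x ∈ W2} × Equiv.Perm (Fin n))).filter
            (fun c => Good c h h')).card * (W2.card * n.choose 2) := by
      rw [← Finset.sum_mul]
      simp_rw [hcount]
      rw [Finset.sum_comm]
      rw [Finset.sum_mul]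
      apply Finset.sum_congr rfl
      intro h _
      rw [Finset.sum_comm, Finset.sum_mul]
      apply Finset.sum_congr rfl
      intro h' _
      rw [Finset.card_filter]
    rw [h4, Finset.sum_congr rfl (fun h hh => Finset.sum_congr rfl (fun h' hh' => hnum h hh h' hh')),
      Finset.sum_const, Finset.sum_const, Fintype.card_prod, Fintype.card_perm, Fintype.card_perm,
      Fintype.card_fin, Fintype.card_coe]
    simp only [smul_eq_mul]
    apply le_of_eq
    ring
  obtain ⟨c, hc⟩ := exists_avg _ _ key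
  refine ⟨(F c).card, ⟨F c, f c.1 c.2, (Finset.filter_subset _ _).trans hR1, le_rfl, ?_, ?_⟩, hc⟩
  · intro x hx y hy hxy
    have aux : ∀ z ∈ verts (F c), z ∉ W1 → f c.1 c.2 z ∉ W2 := by
      intro z hz hzW
      obtain ⟨h, hh, hzh⟩ := Finset.mem_biUnion.1 hz
      obtain ⟨_, h', _, hg⟩ := Finset.mem_filter.1 hh
      have : f c.1 c.2 z ∈ h' \ W2 := by
        rw [← hg.2]
        exact Finset.mem_image_of_mem _ (Finset.mem_sdiff.2 ⟨hzh, hzW⟩)
      exact (Finset.mem_sdiff.1 this).2
    by_cases hxW : x ∈ W1 <;> by_cases hyW : y ∈ W1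
    · simp only [f, hxW, hyW, dif_pos] at hxy
      have h5 := ι.injective (c.1.injective (Subtype.ext hxy))
      exact congrArg Subtype.val h5
    · exact absurd (hxy ▸ hfW c.1 c.2 x hxW) (aux y (Finset.mem_coe.1 hy) hyW)
    · exact absurd (hxy ▸ hfW c.1 c.2 y hyW : f c.1 c.2 x ∈ W2) (aux x (Finset.mem_coe.1 hx) hxW)
    · rw [hfN _ _ _ hxW, hfN _ _ _ hyW] at hxy
      exact c.2.injective hxy
  · intro h hh
    obtain ⟨_, h', hh', hg⟩ := Finset.mem_filter.1 hh
    rw [hgoodimg c h h' hg]
    exact hR2 hh'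

end Avg

variable {n : ℕ}

theorem comA : ComA := by
  intro n e H1 H2 h1 h2 he1 he2
  classical
  have key : Fintype.card (Equiv.Perm (Fin n)) * e ^ 2 ≤
      ∑ σ : Equiv.Perm (Fin n),
        (H1.filter (fun h => h.image (fun x => σ x) ∈ H2)).card * n.choose 3 := by
    have h3 : ∀ σ : Equiv.Perm (Fin n), (H1.filter (fun h => h.image (fun x => σ x) ∈ H2)).card =
        ∑ h ∈ H1, ∑ h' ∈ H2, if h.image (fun x => σ x) = h' then 1 else 0 := by
      intro σ
      rw [Finset.card_filter]
      apply Finset.sum_congr rfl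
      intro h _
      rw [Finset.sum_ite_eq]
    have h4 : ∑ σ : Equiv.Perm (Fin n),
        (H1.filter (fun h => h.image (fun x => σ x) ∈ H2)).card * n.choose 3 =
        ∑ h ∈ H1, ∑ h' ∈ H2, (Avg.carry h h').card * n.choose 3 := by
      rw [← Finset.sum_mul]
      simp_rw [h3]
      rw [Finset.sum_comm]
      rw [Finset.sum_mul]
      apply Finset.sum_congr rfl
      intro h _
      rw [Finset.sum_comm, Finset.sum_mul]
      apply Finset.sum_congr rfl
      intro h' _
      rw [Avg.carry, Finset.card_filter]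
    rw [h4]
    have h5 : ∀ h ∈ H1, ∀ h' ∈ H2, (Avg.carry h h').card * n.choose 3 = n.factorial := by
      intro h hh h' hh'
      have := Avg.card_perm_image (h1 h hh) (h2 h' hh')
      simpa using this
    rw [Finset.sum_congr rfl (fun h hh => Finset.sum_congr rfl (fun h' hh' => h5 h hh h' hh'))]
    rw [Finset.sum_const, Finset.sum_const, he1, he2, Fintype.card_perm, Fintype.card_fin]
    simp only [smul_eq_mul]
    apply le_of_eq
    ring
  obtain ⟨σ, hσ⟩ := Avg.exists_avg _ _ key
  refine ⟨(H1.filter (fun h => h.image (fun x => σ x) ∈ H2)).card,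
    ⟨H1.filter (fun h => h.image (fun x => σ x) ∈ H2), fun x => σ x,
    Finset.filter_subset _ _, le_rfl, σ.injective.injOn, fun h hh => (Finset.mem_filter.1 hh).2⟩, ?_⟩
  exact_mod_cast hσ

/-- both hypergraphs have at least `3e/4` edges that contain a vertex of degree more than `d` -/
theorem comRough {e d : ℕ} {H1 H2 : Hyp n} (h1 : Is3 H1) (h2 : Is3 H2) (he1 : H1.card = e)
    (he2 : H2.card = e)
    (hr1 : 3 * e ≤ 4 * (H1.filter (fun h => ∃ v ∈ h, d < deg H1 v)).card)
    (hr2 : 3 * e ≤ 4 * (H2.filter (fun h => ∃ v ∈ h, d < deg H2 v)).card) :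
    ∃ s, Com H1 H2 s ∧ (e : ℝ) * d ≤ 200 * s * (n : ℝ) ^ 2 := by
  obtain ⟨W1, R1, hR1, hW1, hc1, hd1⟩ := Avg.rough_part h1 he1 hr1
  obtain ⟨W2, R2, hR2, hW2, hc2, hd2⟩ := Avg.rough_part h2 he2 hr2
  have main : ∃ s, Com H1 H2 s ∧ ∃ b, b * d ≤ 3 * e ∧
      R1.card * R2.card ≤ s * (b * n.choose 2) := by
    rcases le_total W1.card W2.card with hle | hle
    · obtain ⟨s, hs, hs'⟩ := Avg.core h1 h2 hR1 hR2 hW1 hW2 hle
      exact ⟨s, hs, W2.card, hd2, hs'⟩
    · obtain ⟨s, hs, hs'⟩ := Avg.core h2 h1 hR2 hR1 hW2 hW1 hle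
      exact ⟨s, Avg.com_symm hs, W1.card, hd1, by rw [mul_comm R1.card]; exact hs'⟩
  obtain ⟨s, hs, b, hb, hsb⟩ := main
  refine ⟨s, hs, ?_⟩
  rcases Nat.eq_zero_or_pos e with he0 | he0
  · subst he0
    have : (0 : ℝ) ≤ 200 * s * (n : ℝ) ^ 2 := by positivity
    simpa using this
  have hch : 2 * (n.choose 2 : ℝ) ≤ (n : ℝ) ^ 2 := by
    have h5 := Nat.choose_le_pow_div 2 n (α := ℝ)
    have h6 : (Nat.factorial 2 : ℝ) = 2 := by norm_num
    rw [h6] at h5
    linarith
  have r1 : (3 * e : ℝ) ≤ 32 * R1.card := by exact_mod_cast hc1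
  have r2 : (3 * e : ℝ) ≤ 32 * R2.card := by exact_mod_cast hc2
  have rb : (b : ℝ) * d ≤ 3 * e := by exact_mod_cast hb
  have rs : (R1.card : ℝ) * R2.card ≤ s * (b * (n.choose 2 : ℕ)) := by exact_mod_cast hsb
  have hepos : (0 : ℝ) < e := by exact_mod_cast he0
  have hprod : (3 * e : ℝ) * (3 * e) ≤ 32 * 32 * (R1.card * R2.card) := by
    have := mul_le_mul r1 r2 (by positivity) (by positivity)
    calc (3 * e : ℝ) * (3 * e) ≤ 32 * R1.card * (32 * R2.card) := this
      _ = _ := by ring
  have h9 : (9 : ℝ) * e ^ 2 * d ≤ 1024 * (s * (b * (n.choose 2 : ℕ))) * d := by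
    have hd0 : (0 : ℝ) ≤ d := Nat.cast_nonneg d
    have : (9 : ℝ) * e ^ 2 ≤ 1024 * (s * (b * (n.choose 2 : ℕ))) := by nlinarith
    exact mul_le_mul_of_nonneg_right this hd0
  have h10 : 1024 * ((s : ℝ) * (b * (n.choose 2 : ℕ))) * d ≤ 512 * s * (n : ℝ) ^ 2 * (3 * e) := by
    have e1 : 1024 * ((s : ℝ) * (b * (n.choose 2 : ℕ))) * d =
        512 * s * (2 * (n.choose 2 : ℝ)) * (b * d) := by ring
    rw [e1]
    have hs0 : (0 : ℝ) ≤ 512 * s := by positivity
    apply mul_le_mul (mul_le_mul_of_nonneg_left hch hs0) rb (by positivity) (by positivity)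
  have h11 : (9 : ℝ) * e * (e * d) ≤ e * (1536 * s * (n : ℝ) ^ 2) := by
    calc (9 : ℝ) * e * (e * d) = 9 * e ^ 2 * d := by ring
      _ ≤ 512 * s * (n : ℝ) ^ 2 * (3 * e) := h9.trans h10
      _ = _ := by ring
  have h12 : (9 : ℝ) * (e * d) ≤ 1536 * s * (n : ℝ) ^ 2 := by
    have : (e : ℝ) * (9 * (e * d)) ≤ e * (1536 * s * (n : ℝ) ^ 2) := by linarith
    exact le_of_mul_le_mul_left this hepos
  have hnn : (0 : ℝ) ≤ s * (n : ℝ) ^ 2 := by positivity
  nlinarith

end Ulam
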