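import Mathlib

/-!
Module T: second moment over `Fin k → Fin d → Fin n`.
-/

open Finset

namespace Ulam

variable {n : ℕ}

namespace LT

/-- sum over rows of a product of two functions of two different entries -/
lemma row_two {d : ℕ} (hn : (n : ℝ) ≠ 0) (g h : Fin n → ℝ) {i i' : Fin d} (hii : i ≠ i') :
    ∑ r : Fin d → Fin n, g (r i) * h (r i') =
      (n : ℝ) ^ d * (((∑ a, g a) / n) * ((∑ a, h a) / n)) := by
  classical
  have key := Finset.prod_univ_sum (fun _ : Fin d => (univ : Finset (Fin n)))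
    (fun j a => (if j = i then g a else 1) * (if j = i' then h a else 1))
  rw [Fintype.piFinset_univ] at key
  have h1 : ∀ r : Fin d → Fin n,
      ∏ j, ((if j = i then g (r j) else 1) * (if j = i' then h (r j) else 1)) =
        g (r i) * h (r i') := by
    intro r
    rw [Finset.prod_mul_distrib]
    simp
  have h2 : ∀ j : Fin d, ∑ a, ((if j = i then g a else 1) * (if j = i' then h a else 1)) =
      (n : ℝ) * ((if j = i then (∑ a, g a) / n else 1) *
        (if j = i' then (∑ a, h a) / n else 1)) := by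
    intro j
    by_cases h3 : j = i
    · have h4 : j ≠ i' := by rw [h3]; exact hii
      simp only [h3, if_true, if_neg hii, mul_one]
      field_simp
    · by_cases h4 : j = i'
      · simp only [h4, if_true, if_neg (Ne.symm hii), one_mul]
        field_simp
      · simp [h3, h4]
  rw [Finset.sum_congr rfl fun r _ => (h1 r).symm, ← key, Finset.prod_congr rfl fun j _ => h2 j,
    Finset.prod_mul_distrib, Finset.prod_mul_distrib]
  simp

lemma row_one {d : ℕ} (hn : (n : ℝ) ≠ 0) (g : Fin n → ℝ) (i : Fin d) :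
    ∑ r : Fin d → Fin n, g (r i) = (n : ℝ) ^ d * ((∑ a, g a) / n) := by
  classical
  have key := Finset.prod_univ_sum (fun _ : Fin d => (univ : Finset (Fin n)))
    (fun j a => (if j = i then g a else 1))
  rw [Fintype.piFinset_univ] at key
  have h1 : ∀ r : Fin d → Fin n, ∏ j, (if j = i then g (r j) else 1) = g (r i) := by
    intro r; simp
  have h2 : ∀ j : Fin d, ∑ a, (if j = i then g a else 1) =
      (n : ℝ) * (if j = i then (∑ a, g a) / n else 1) := by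
    intro j
    by_cases h3 : j = i
    · simp only [h3, if_true]
      field_simp
    · simp [h3]
  rw [Finset.sum_congr rfl fun r _ => (h1 r).symm, ← key, Finset.prod_congr rfl fun j _ => h2 j,
    Finset.prod_mul_distrib]
  simp

/-- number of hits of a row -/
def hits {d : ℕ} (N : Finset (Fin n)) (r : Fin d → Fin n) : ℝ :=
  ∑ i, (if r i ∈ N then (1 : ℝ) else 0)

lemma hits_nonneg {d : ℕ} (N : Finset (Fin n)) (r : Fin d → Fin n) : 0 ≤ hits N r :=
  Finset.sum_nonneg fun i _ => by split_ifs <;> norm_num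

lemma hits_eq_zero {d : ℕ} {N : Finset (Fin n)} {r : Fin d → Fin n} (h : ¬ ∃ i, r i ∈ N) :
    hits N r = 0 := by
  unfold hits
  refine Finset.sum_eq_zero fun i _ => ?_
  rw [if_neg]
  exact fun hi => h ⟨i, hi⟩

lemma sum_hits {d : ℕ} (hn : (n : ℝ) ≠ 0) (N : Finset (Fin n)) :
    ∑ r : Fin d → Fin n, hits N r = (n : ℝ) ^ d * (d * N.card / n) := by
  unfold hits
  rw [Finset.sum_comm]
  have h1 : ∀ i : Fin d, ∑ r : Fin d → Fin n, (if r i ∈ N then (1 : ℝ) else 0) =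
      (n : ℝ) ^ d * (N.card / n) := by
    intro i
    have := row_one hn (fun a => if a ∈ N then (1 : ℝ) else 0) i
    rw [this]
    simp
  rw [Finset.sum_congr rfl fun i _ => h1 i]
  simp
  ring

lemma sum_ind (N : Finset (Fin n)) : (∑ a : Fin n, if a ∈ N then (1 : ℝ) else 0) = N.card := by
  simp

lemma ind_mul (N N' : Finset (Fin n)) (a : Fin n) :
    (if a ∈ N then (1 : ℝ) else 0) * (if a ∈ N' then (1 : ℝ) else 0) =
      if a ∈ N ∩ N' then (1 : ℝ) else 0 := by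
  by_cases h1 : a ∈ N <;> by_cases h2 : a ∈ N' <;> simp [h1, h2]

lemma sum_hits_mul {d : ℕ} (hn : (n : ℝ) ≠ 0) (N N' : Finset (Fin n)) (ρ : ℝ)
    (h : N.card = N'.card) (hρ : ρ = d * N.card / n) :
    ∑ r : Fin d → Fin n, hits N r * hits N' r ≤
      (n : ℝ) ^ d * (ρ ^ 2 + d * (N ∩ N').card / n) := by
  have h0 : (0 : ℝ) ≤ n := Nat.cast_nonneg n
  have e1 : ∀ r : Fin d → Fin n, hits N r * hits N' r =
      ∑ i, ∑ i', (if r i ∈ N then (1 : ℝ) else 0) * (if r i' ∈ N' then (1 : ℝ) else 0) := by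
    intro r
    unfold hits
    rw [Finset.sum_mul_sum]
  have e2 : ∀ i i' : Fin d, ∑ r : Fin d → Fin n,
      (if r i ∈ N then (1 : ℝ) else 0) * (if r i' ∈ N' then (1 : ℝ) else 0) ≤
        (n : ℝ) ^ d * ((N.card / n) ^ 2 + if i = i' then ((N ∩ N').card : ℝ) / n else 0) := by
    intro i i'
    by_cases hii : i = i'
    · subst hii
      rw [Finset.sum_congr rfl fun r _ => ind_mul N N' (r i)]
      have := row_one (d := d) hn (fun a => if a ∈ N ∩ N' then (1 : ℝ) else 0) i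
      rw [this, sum_ind]
      simp only [if_true]
      refine mul_le_mul_of_nonneg_left ?_ (by positivity)
      have : (0 : ℝ) ≤ ((N.card : ℝ) / n) ^ 2 := by positivity
      linarith
    · have := row_two hn (fun a => if a ∈ N then (1 : ℝ) else 0)
        (fun a => if a ∈ N' then (1 : ℝ) else 0) hii
      rw [this, sum_ind, sum_ind]
      refine mul_le_mul_of_nonneg_left ?_ (by positivity)
      rw [if_neg hii, add_zero, ← h, sq]
  calc ∑ r : Fin d → Fin n, hits N r * hits N' r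
      = ∑ i, ∑ i', ∑ r : Fin d → Fin n,
        (if r i ∈ N then (1 : ℝ) else 0) * (if r i' ∈ N' then (1 : ℝ) else 0) := by
        rw [Finset.sum_congr rfl fun r _ => e1 r, Finset.sum_comm]
        refine Finset.sum_congr rfl fun i _ => ?_
        rw [Finset.sum_comm]
    _ ≤ ∑ i : Fin d, ∑ i' : Fin d, (n : ℝ) ^ d * ((N.card / n) ^ 2 +
        if i = i' then ((N ∩ N').card : ℝ) / n else 0) :=
        Finset.sum_le_sum fun i _ => Finset.sum_le_sum fun i' _ => e2 i i'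
    _ = (n : ℝ) ^ d * (ρ ^ 2 + d * (N ∩ N').card / n) := by
        simp only [← Finset.mul_sum, Finset.sum_add_distrib, Finset.sum_ite_eq, Finset.mem_univ,
          if_true, Finset.sum_const, Finset.card_univ, Fintype.card_fin, nsmul_eq_mul]
        rw [hρ]
        ring

/-- power difference -/
lemma pow_sub_pow_le {a b c : ℝ} (ha : 0 ≤ a) (hb : 0 ≤ b) (hbc : b ≤ c) (k : ℕ) :
    (a + b) ^ k - a ^ k ≤ k * b * (a + c) ^ (k - 1) := by
  induction k with
  | zero => simp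
  | succ k ih =>
    rcases Nat.eq_zero_or_pos k with rfl | hk
    · simp
    · obtain ⟨j, rfl⟩ : ∃ j, k = j + 1 := ⟨k - 1, by omega⟩
      simp only [Nat.add_sub_cancel] at ih ⊢
      have h1 : (a + b) ^ (j + 1) ≤ (a + c) ^ (j + 1) :=
        pow_le_pow_left₀ (by positivity) (by linarith) _
      have h2 : a * ((a + b) ^ (j + 1) - a ^ (j + 1)) ≤ a * (((j + 1 : ℕ) : ℝ) * b * (a + c) ^ j) :=
        mul_le_mul_of_nonneg_left ih ha
      have h3 : a * (((j + 1 : ℕ) : ℝ) * b * (a + c) ^ j) ≤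
          (a + c) * (((j + 1 : ℕ) : ℝ) * b * (a + c) ^ j) := by
        refine mul_le_mul_of_nonneg_right (by linarith) ?_
        have : 0 ≤ a + c := by linarith
        positivity
      have h4 : b * (a + b) ^ (j + 1) ≤ b * (a + c) ^ (j + 1) := mul_le_mul_of_nonneg_left h1 hb
      push_cast at *
      calc (a + b) ^ (j + 1 + 1) - a ^ (j + 1 + 1)
          = a * ((a + b) ^ (j + 1) - a ^ (j + 1)) + b * (a + b) ^ (j + 1) := by ring
        _ ≤ (a + c) * (((j : ℝ) + 1) * b * (a + c) ^ j) + b * (a + c) ^ (j + 1) := by linarith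
        _ = ((j : ℝ) + 1 + 1) * b * (a + c) ^ (j + 1) := by ring

end LT

theorem lemT {k d dt : ℕ} (hk : 1 ≤ k) (Y : Finset (Fin n)) (N : Fin n → Finset (Fin n))
    (Δ ρ : ℝ) (hN : ∀ y ∈ Y, (N y).card = dt)
    (hΔ : ∀ a, ((Y.filter (fun y => a ∈ N y)).card : ℝ) ≤ Δ)
    (hρ : ρ = d * dt / n) (hρ0 : 0 < ρ)
    (hmain : 32 * k * (1 + 1 / ρ) ^ k * Δ ≤ ρ * Y.card) :
    (3 / 4 : ℝ) * (n : ℝ) ^ (k * d) ≤
      ((univ : Finset (Fin k → Fin d → Fin n)).filter (fun ψ =>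
        (Y.card : ℝ) ≤ 32 * (1 + 1 / ρ) ^ k *
          ((Y.filter (fun y => ∀ j, ∃ i, ψ j i ∈ N y)).card : ℝ))).card := by
  classical
  have hn0 : (n : ℝ) ≠ 0 := by
    rintro h
    rw [h] at hρ
    simp at hρ
    linarith
  have hnpos : (0 : ℝ) < n := lt_of_le_of_ne (Nat.cast_nonneg n) (Ne.symm hn0)
  have hT : (Fintype.card (Fin k → Fin d → Fin n) : ℝ) = (n : ℝ) ^ (k * d) := by
    simp [← pow_mul, mul_comm]
  have h1ρ : (0 : ℝ) < 1 + 1 / ρ := by positivity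
  rcases Nat.eq_zero_or_pos Y.card with hY0 | hYpos
  · -- trivial case
    have : ((univ : Finset (Fin k → Fin d → Fin n)).filter (fun ψ =>
        (Y.card : ℝ) ≤ 32 * (1 + 1 / ρ) ^ k *
          ((Y.filter (fun y => ∀ j, ∃ i, ψ j i ∈ N y)).card : ℝ))) = univ := by
      refine Finset.filter_true_of_mem fun ψ _ => ?_
      rw [hY0, Nat.cast_zero]
      exact mul_nonneg (mul_nonneg (by norm_num) (pow_nonneg h1ρ.le k)) (Nat.cast_nonneg _)
    rw [this, Finset.card_univ, hT]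
    have : (0 : ℝ) ≤ (n : ℝ) ^ (k * d) := by positivity
    linarith
  set Z : ℝ := (Y.card : ℝ) with hZ
  have hZpos : 0 < Z := by rw [hZ]; exact_mod_cast hYpos
  set M : ℝ := (n : ℝ) ^ (k * d) with hTd
  have hTpos : 0 < M := by positivity
  have hTpow : M = ((n : ℝ) ^ d) ^ k := by rw [hTd, ← pow_mul, mul_comm]
  -- J
  set J : (Fin k → Fin d → Fin n) → Fin n → ℝ := fun ψ y => ∏ j, LT.hits (N y) (ψ j) with hJ
  have hJnn : ∀ ψ y, 0 ≤ J ψ y := fun ψ y => Finset.prod_nonneg fun j _ => LT.hits_nonneg _ _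
  set X : (Fin k → Fin d → Fin n) → ℝ := fun ψ => ∑ y ∈ Y, J ψ y with hX
  have hJsum : ∀ y ∈ Y, ∑ ψ, J ψ y = M * ρ ^ k := by
    intro y hy
    have h1 := Fintype.sum_pow (fun r : Fin d → Fin n => LT.hits (N y) r) k
    simp only [hJ]
    rw [← h1, LT.sum_hits hn0, hN y hy, ← hρ, mul_pow, ← hTpow]
  have hJJ : ∀ y ∈ Y, ∀ y' ∈ Y, ∑ ψ, J ψ y * J ψ y' ≤
      M * (ρ ^ 2 + d * ((N y ∩ N y').card : ℝ) / n) ^ k := by
    intro y hy y' hy'
    have h1 := Fintype.sum_pow (fun r : Fin d → Fin n => LT.hits (N y) r * LT.hits (N y') r) k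
    have h2 : ∑ ψ, J ψ y * J ψ y' =
        ∑ ψ : Fin k → Fin d → Fin n, ∏ j, (LT.hits (N y) (ψ j) * LT.hits (N y') (ψ j)) := by
      refine Finset.sum_congr rfl fun ψ _ => ?_
      simp only [hJ]
      rw [Finset.prod_mul_distrib]
    rw [h2, ← h1, hTpow, ← mul_pow]
    refine pow_le_pow_left₀ ?_ ?_ k
    · exact Finset.sum_nonneg fun r _ => mul_nonneg (LT.hits_nonneg _ _) (LT.hits_nonneg _ _)
    · exact LT.sum_hits_mul hn0 _ _ ρ (by rw [hN y hy, hN y' hy']) (by rw [hN y hy, hρ])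
  have hinter : ∀ y ∈ Y, ∀ y', (d : ℝ) * ((N y ∩ N y').card : ℝ) / n ≤ ρ := by
    intro y hy y'
    rw [hρ]
    refine div_le_div_of_nonneg_right ?_ hnpos.le
    refine mul_le_mul_of_nonneg_left ?_ (Nat.cast_nonneg d)
    have := Finset.card_le_card (Finset.inter_subset_left (s₁ := N y) (s₂ := N y'))
    rw [hN y hy] at this
    exact_mod_cast this
  have hΔ0 : 0 ≤ Δ := by
    have hn1 : 0 < n := by exact_mod_cast hnpos
    exact le_trans (Nat.cast_nonneg _) (hΔ ⟨0, hn1⟩)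
  -- overlaps
  have hover : ∑ y ∈ Y, ∑ y' ∈ Y, ((N y ∩ N y').card : ℝ) ≤ Δ * (Z * dt) := by
    have e1 : ∀ y y' : Fin n, ((N y ∩ N y').card : ℝ) =
        ∑ a, (if a ∈ N y then (1 : ℝ) else 0) * (if a ∈ N y' then (1 : ℝ) else 0) := by
      intro y y'
      rw [Finset.sum_congr rfl fun a _ => LT.ind_mul (N y) (N y') a, LT.sum_ind]
    have e2 : ∑ y ∈ Y, ∑ y' ∈ Y, ((N y ∩ N y').card : ℝ) =
        ∑ a, (∑ y ∈ Y, (if a ∈ N y then (1 : ℝ) else 0)) *
          (∑ y' ∈ Y, (if a ∈ N y' then (1 : ℝ) else 0)) := by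
      simp only [e1]
      rw [Finset.sum_congr rfl fun y _ => Finset.sum_comm, Finset.sum_comm]
      refine Finset.sum_congr rfl fun a _ => ?_
      rw [Finset.sum_mul_sum]
    have e3 : ∀ a, (∑ y ∈ Y, (if a ∈ N y then (1 : ℝ) else 0)) ≤ Δ := by
      intro a
      rw [Finset.sum_boole]
      exact hΔ a
    have e4 : ∑ a, (∑ y ∈ Y, (if a ∈ N y then (1 : ℝ) else 0)) = Z * dt := by
      rw [Finset.sum_comm, Finset.sum_congr rfl fun y hy => (LT.sum_ind (N y)).trans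
        (by rw [hN y hy] : ((N y).card : ℝ) = dt)]
      simp [hZ]
    rw [e2, ← e4, Finset.mul_sum]
    refine Finset.sum_le_sum fun a _ => ?_
    refine mul_le_mul_of_nonneg_right (e3 a) ?_
    exact Finset.sum_nonneg fun y _ => by split_ifs <;> norm_num
  -- second moment
  have hsumX : ∑ ψ, X ψ = Z * (M * ρ ^ k) := by
    simp only [hX]
    rw [Finset.sum_comm, Finset.sum_congr rfl hJsum]
    simp [hZ]
  have hsumX2 : ∑ ψ, X ψ ^ 2 ≤ ∑ y ∈ Y, ∑ y' ∈ Y,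
      M * (ρ ^ 2 + d * ((N y ∩ N y').card : ℝ) / n) ^ k := by
    have e1 : ∀ ψ, X ψ ^ 2 = ∑ y ∈ Y, ∑ y' ∈ Y, J ψ y * J ψ y' := by
      intro ψ
      simp only [hX]
      rw [sq, Finset.sum_mul_sum]
    calc ∑ ψ, X ψ ^ 2 = ∑ y ∈ Y, ∑ y' ∈ Y, ∑ ψ, J ψ y * J ψ y' := by
          rw [Finset.sum_congr rfl fun ψ _ => e1 ψ, Finset.sum_comm]
          refine Finset.sum_congr rfl fun y _ => ?_
          rw [Finset.sum_comm]
      _ ≤ _ := Finset.sum_le_sum fun y hy => Finset.sum_le_sum fun y' hy' => hJJ y hy y' hy'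
  have hvar : ∑ ψ, (X ψ - Z * ρ ^ k) ^ 2 ≤ M * (k * ρ * (ρ ^ 2 + ρ) ^ (k - 1) * Δ * Z) := by
    have hcard : (((univ : Finset (Fin k → Fin d → Fin n)).card : ℕ) : ℝ) = M := by
      rw [Finset.card_univ, hT]
    have e1 : ∑ ψ, (X ψ - Z * ρ ^ k) ^ 2 = ∑ ψ, X ψ ^ 2 - M * (Z * ρ ^ k) ^ 2 := by
      have : ∀ ψ, (X ψ - Z * ρ ^ k) ^ 2 = X ψ ^ 2 - 2 * (Z * ρ ^ k) * X ψ + (Z * ρ ^ k) ^ 2 := by
        intro ψ; ring
      rw [Finset.sum_congr rfl fun ψ _ => this ψ, Finset.sum_add_distrib, Finset.sum_sub_distrib,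
        ← Finset.mul_sum, hsumX, Finset.sum_const, nsmul_eq_mul, hcard]
      ring
    have e2 : M * (Z * ρ ^ k) ^ 2 = ∑ y ∈ Y, ∑ y' ∈ Y, M * (ρ ^ 2) ^ k := by
      simp only [Finset.sum_const, nsmul_eq_mul]
      rw [← hZ]
      ring
    rw [e1, e2]
    have e3 : ∑ y ∈ Y, ∑ y' ∈ Y, M * (ρ ^ 2 + d * ((N y ∩ N y').card : ℝ) / n) ^ k -
        ∑ y ∈ Y, ∑ y' ∈ Y, M * (ρ ^ 2) ^ k ≤
        ∑ y ∈ Y, ∑ y' ∈ Y, M * (k * (d * ((N y ∩ N y').card : ℝ) / n) *
          (ρ ^ 2 + ρ) ^ (k - 1)) := by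
      rw [← Finset.sum_sub_distrib]
      refine Finset.sum_le_sum fun y hy => ?_
      rw [← Finset.sum_sub_distrib]
      refine Finset.sum_le_sum fun y' _ => ?_
      rw [← mul_sub]
      refine mul_le_mul_of_nonneg_left ?_ hTpos.le
      exact LT.pow_sub_pow_le (by positivity) (by positivity) (hinter y hy y') k
    have e4 : ∑ y ∈ Y, ∑ y' ∈ Y, M * (k * (d * ((N y ∩ N y').card : ℝ) / n) *
          (ρ ^ 2 + ρ) ^ (k - 1)) =
        M * (k * (ρ ^ 2 + ρ) ^ (k - 1) * (d / n)) * ∑ y ∈ Y, ∑ y' ∈ Y, ((N y ∩ N y').card : ℝ) := by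
      rw [Finset.mul_sum]
      refine Finset.sum_congr rfl fun y _ => ?_
      rw [Finset.mul_sum]
      refine Finset.sum_congr rfl fun y' _ => ?_
      ring
    have e5 : M * (k * (ρ ^ 2 + ρ) ^ (k - 1) * (d / n)) *
        ∑ y ∈ Y, ∑ y' ∈ Y, ((N y ∩ N y').card : ℝ) ≤
        M * (k * (ρ ^ 2 + ρ) ^ (k - 1) * (d / n)) * (Δ * (Z * dt)) :=
      mul_le_mul_of_nonneg_left hover (by positivity)
    have e6 : M * (k * (ρ ^ 2 + ρ) ^ (k - 1) * (d / n)) * (Δ * (Z * dt)) =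
        M * (k * ρ * (ρ ^ 2 + ρ) ^ (k - 1) * Δ * Z) := by
      have : ρ = d / n * dt := by rw [hρ]; ring
      conv_rhs => rw [show (k : ℝ) * ρ * (ρ ^ 2 + ρ) ^ (k - 1) * Δ * Z =
        k * (ρ ^ 2 + ρ) ^ (k - 1) * Δ * Z * ρ by ring]
      conv_rhs => rw [show (k : ℝ) * (ρ ^ 2 + ρ) ^ (k - 1) * Δ * Z * ρ =
        k * (ρ ^ 2 + ρ) ^ (k - 1) * Δ * Z * (d / n * dt) by rw [← this]]
      ring
    linarith
  -- factorizations
  have hfac : ∀ j : ℕ, (ρ ^ 2 + ρ) ^ j = ρ ^ (2 * j) * (1 + 1 / ρ) ^ j := by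
    intro j
    rw [pow_mul, ← mul_pow]
    congr 1
    field_simp
  -- the two bad sets
  set B1 := (univ : Finset (Fin k → Fin d → Fin n)).filter (fun ψ => X ψ < Z * ρ ^ k / 2) with hB1
  set B2 := (univ : Finset (Fin k → Fin d → Fin n)).filter
    (fun ψ => 8 * Z * (ρ ^ 2 + ρ) ^ k < ∑ y ∈ Y, J ψ y ^ 2) with hB2
  have hcB1 : (B1.card : ℝ) ≤ M / 8 := by
    have e1 : (B1.card : ℝ) * (Z * ρ ^ k / 2) ^ 2 ≤ ∑ ψ, (X ψ - Z * ρ ^ k) ^ 2 := by
      calc (B1.card : ℝ) * (Z * ρ ^ k / 2) ^ 2 = ∑ ψ ∈ B1, (Z * ρ ^ k / 2) ^ 2 := by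
            rw [Finset.sum_const, nsmul_eq_mul]
        _ ≤ ∑ ψ ∈ B1, (X ψ - Z * ρ ^ k) ^ 2 := by
            refine Finset.sum_le_sum fun ψ hψ => ?_
            have h1 : X ψ < Z * ρ ^ k / 2 := (Finset.mem_filter.1 hψ).2
            have h2 : 0 < Z * ρ ^ k / 2 := by positivity
            nlinarith
        _ ≤ ∑ ψ, (X ψ - Z * ρ ^ k) ^ 2 :=
            Finset.sum_le_sum_of_subset_of_nonneg (Finset.subset_univ _)
              fun ψ _ _ => sq_nonneg _
    have e2 : M * (k * ρ * (ρ ^ 2 + ρ) ^ (k - 1) * Δ * Z) ≤ M / 8 * (Z * ρ ^ k / 2) ^ 2 := by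
      have h1 : (1 + 1 / ρ) ^ (k - 1) ≤ (1 + 1 / ρ) ^ k :=
        pow_le_pow_right₀ (by have : 0 < 1 / ρ := by positivity
                              linarith) (Nat.sub_le _ _)
      have h2 : 32 * k * (1 + 1 / ρ) ^ (k - 1) * Δ ≤ ρ * Z := by
        refine le_trans ?_ hmain
        refine mul_le_mul_of_nonneg_right ?_ hΔ0
        exact mul_le_mul_of_nonneg_left h1 (by positivity)
      have h3 : ρ ^ (2 * (k - 1)) * ρ ^ 2 = ρ ^ (2 * k) := by
        rw [← pow_add]; congr 1; omega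
      have h4 : (Z * ρ ^ k / 2) ^ 2 = Z ^ 2 * (ρ ^ (2 * (k - 1)) * ρ ^ 2) / 4 := by
        rw [h3, show (2 * k) = k * 2 by ring, pow_mul]; ring
      rw [hfac, h4]
      have h5 : M * (k * ρ * (ρ ^ (2 * (k - 1)) * (1 + 1 / ρ) ^ (k - 1)) * Δ * Z) =
          (M * ρ * ρ ^ (2 * (k - 1)) * Z / 32) * (32 * k * (1 + 1 / ρ) ^ (k - 1) * Δ) := by ring
      have h6 : M / 8 * (Z ^ 2 * (ρ ^ (2 * (k - 1)) * ρ ^ 2) / 4) =
          (M * ρ * ρ ^ (2 * (k - 1)) * Z / 32) * (ρ * Z) := by ring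
      rw [h5, h6]
      exact mul_le_mul_of_nonneg_left h2 (by positivity)
    have e3 : 0 < (Z * ρ ^ k / 2) ^ 2 := by positivity
    exact le_of_mul_le_mul_right (e1.trans (hvar.trans e2)) e3
  have hcB2 : (B2.card : ℝ) ≤ M / 8 := by
    have e1 : (B2.card : ℝ) * (8 * Z * (ρ ^ 2 + ρ) ^ k) ≤ ∑ ψ, ∑ y ∈ Y, J ψ y ^ 2 := by
      calc (B2.card : ℝ) * (8 * Z * (ρ ^ 2 + ρ) ^ k) = ∑ ψ ∈ B2, 8 * Z * (ρ ^ 2 + ρ) ^ k := by
            rw [Finset.sum_const, nsmul_eq_mul]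
        _ ≤ ∑ ψ ∈ B2, ∑ y ∈ Y, J ψ y ^ 2 :=
            Finset.sum_le_sum fun ψ hψ => (Finset.mem_filter.1 hψ).2.le
        _ ≤ ∑ ψ, ∑ y ∈ Y, J ψ y ^ 2 :=
            Finset.sum_le_sum_of_subset_of_nonneg (Finset.subset_univ _)
              fun ψ _ _ => Finset.sum_nonneg fun y _ => sq_nonneg _
    have e2 : ∑ ψ, ∑ y ∈ Y, J ψ y ^ 2 ≤ M / 8 * (8 * Z * (ρ ^ 2 + ρ) ^ k) := by
      rw [Finset.sum_comm]
      calc ∑ y ∈ Y, ∑ ψ, J ψ y ^ 2 ≤ ∑ y ∈ Y, M * (ρ ^ 2 + ρ) ^ k := by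
            refine Finset.sum_le_sum fun y hy => ?_
            have h1 := hJJ y hy y hy
            have h2 : ∑ ψ, J ψ y ^ 2 = ∑ ψ, J ψ y * J ψ y :=
              Finset.sum_congr rfl fun ψ _ => sq _
            rw [h2]
            refine h1.trans ?_
            refine mul_le_mul_of_nonneg_left ?_ hTpos.le
            refine pow_le_pow_left₀ (by positivity) ?_ k
            have := hinter y hy y
            linarith
        _ = M / 8 * (8 * Z * (ρ ^ 2 + ρ) ^ k) := by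
            rw [Finset.sum_const, nsmul_eq_mul, ← hZ]; ring
    have e3 : 0 < 8 * Z * (ρ ^ 2 + ρ) ^ k := by positivity
    exact le_of_mul_le_mul_right (e1.trans e2) e3
  -- conclusion
  set Gd := (univ : Finset (Fin k → Fin d → Fin n)).filter (fun ψ =>
        Z ≤ 32 * (1 + 1 / ρ) ^ k *
          ((Y.filter (fun y => ∀ j, ∃ i, ψ j i ∈ N y)).card : ℝ)) with hGd
  have hsub : (univ : Finset (Fin k → Fin d → Fin n)) ⊆ Gd ∪ (B1 ∪ B2) := by
    intro ψ _
    by_cases h1 : ψ ∈ B1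
    · exact Finset.mem_union_right _ (Finset.mem_union_left _ h1)
    by_cases h2 : ψ ∈ B2
    · exact Finset.mem_union_right _ (Finset.mem_union_right _ h2)
    refine Finset.mem_union_left _ ?_
    rw [hGd, Finset.mem_filter]
    refine ⟨Finset.mem_univ _, ?_⟩
    have h1' : Z * ρ ^ k / 2 ≤ X ψ := by
      by_contra h
      exact h1 (Finset.mem_filter.2 ⟨Finset.mem_univ _, lt_of_not_ge h⟩)
    have h2' : ∑ y ∈ Y, J ψ y ^ 2 ≤ 8 * Z * (ρ ^ 2 + ρ) ^ k := by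
      by_contra h
      exact h2 (Finset.mem_filter.2 ⟨Finset.mem_univ _, lt_of_not_ge h⟩)
    set Y' := Y.filter (fun y => ∀ j, ∃ i, ψ j i ∈ N y) with hY'
    have h3 : X ψ = ∑ y ∈ Y', J ψ y := by
      simp only [hX]
      refine (Finset.sum_subset (Finset.filter_subset _ _) ?_).symm
      intro y hy hy'
      have : ¬ ∀ j, ∃ i, ψ j i ∈ N y := fun h => hy' (Finset.mem_filter.2 ⟨hy, h⟩)
      push Not at this
      obtain ⟨j, hj⟩ := this
      simp only [hJ]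
      refine Finset.prod_eq_zero (Finset.mem_univ j) ?_
      exact LT.hits_eq_zero (by push Not; exact hj)
    have h4 : (∑ y ∈ Y', J ψ y) ^ 2 ≤ (Y'.card : ℝ) * ∑ y ∈ Y', J ψ y ^ 2 := sq_sum_le_card_mul_sum_sq
    have h5 : ∑ y ∈ Y', J ψ y ^ 2 ≤ ∑ y ∈ Y, J ψ y ^ 2 :=
      Finset.sum_le_sum_of_subset_of_nonneg (Finset.filter_subset _ _) fun y _ _ => sq_nonneg _
    have h6 : (Z * ρ ^ k / 2) ^ 2 ≤ (Y'.card : ℝ) * (8 * Z * (ρ ^ 2 + ρ) ^ k) := by
      have h7 : (Z * ρ ^ k / 2) ^ 2 ≤ X ψ ^ 2 := pow_le_pow_left₀ (by positivity) h1' 2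
      rw [h3] at h7
      refine h7.trans (h4.trans ?_)
      exact mul_le_mul_of_nonneg_left (h5.trans h2') (Nat.cast_nonneg _)
    have h8 : (Z * ρ ^ k / 2) ^ 2 = (Z * ρ ^ (2 * k) / 4) * Z := by
      rw [show 2 * k = k * 2 by ring, pow_mul]; ring
    have h9 : (Y'.card : ℝ) * (8 * Z * (ρ ^ 2 + ρ) ^ k) =
        (Z * ρ ^ (2 * k) / 4) * (32 * (1 + 1 / ρ) ^ k * (Y'.card : ℝ)) := by
      rw [hfac]; ring
    rw [h8, h9] at h6
    exact le_of_mul_le_mul_left h6 (by positivity)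
  have hcard1 : M ≤ (Gd.card : ℝ) + ((B1.card : ℝ) + (B2.card : ℝ)) := by
    have h1 := Finset.card_le_card hsub
    have h2 := Finset.card_union_le Gd (B1 ∪ B2)
    have h3 := Finset.card_union_le B1 B2
    have h4 : Fintype.card (Fin k → Fin d → Fin n) ≤ Gd.card + (B1.card + B2.card) := by
      rw [← Finset.card_univ]; omega
    rw [← hT]
    exact_mod_cast h4
  linarith

end Ulam
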