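import Pool.Agent.Lib.Ulam.Defs

/-!
# The lower bound `U 2 n 3 ≥ c n ^ (4 / 3) (log n) ^ (- 2 / 3)`

(helper75, problem MP_9dddc4_co, module LOWER)  Counting proof of the probabilistic lower bound.
-/

open Finset

namespace Ulam

variable {n : ℕ}

/-! ### single edges are always a decomposition -/

theorem low_eiso_single {h h' : Finset (Fin n)} (hc : h.card = h'.card) :
    EIso ({h} : Hyp n) {h'} := by
  classical
  obtain ⟨e⟩ : Nonempty (h ≃ h') := ⟨Finset.equivOfCardEq hc⟩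
  refine ⟨fun v => if hv : v ∈ h then (e ⟨v, hv⟩ : Fin n) else v, ?_, ?_⟩
  · intro v hv w hw hvw
    have hv' : v ∈ h := by simpa [verts] using hv
    have hw' : w ∈ h := by simpa [verts] using hw
    simp only [hv', hw', dif_pos] at hvw
    have := e.injective (Subtype.ext hvw)
    exact congrArg Subtype.val this
  · rw [Finset.image_singleton]
    congr 1
    ext w
    simp only [mem_image]
    constructor
    · rintro ⟨v, hv, rfl⟩
      rw [dif_pos hv]
      exact (e ⟨v, hv⟩).2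
    · intro hw
      refine ⟨e.symm ⟨w, hw⟩, (e.symm ⟨w, hw⟩).2, ?_⟩
      rw [dif_pos (e.symm ⟨w, hw⟩).2]
      simp

theorem low_suff_nonempty (n : ℕ) : ∃ t, Suff 2 n 3 t := by
  classical
  refine ⟨(univ : Hyp n).card, fun H h3 hH => ?_⟩
  refine ⟨(H 0).card, card_le_univ _, ?_⟩
  have hc : ∀ i, (H i).card = (H 0).card := fun i => hH i 0
  let e : ∀ i, Fin (H 0).card ≃ (H i) := fun i => (Finset.equivFinOfCardEq (hc i)).symm
  refine ⟨fun i j => {(e i j : Finset (Fin n))}, fun i => ⟨?_, ?_⟩, ?_⟩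
  · intro j j' hj
    rw [disjoint_singleton]
    intro h
    exact hj ((e i).injective (Subtype.ext h))
  · ext h
    simp only [mem_biUnion, mem_univ, true_and, mem_singleton]
    constructor
    · rintro ⟨j, rfl⟩
      exact (e i j).2
    · intro hh
      exact ⟨(e i).symm ⟨h, hh⟩, by simp⟩
  · intro j i i'
    refine low_eiso_single ?_
    rw [h3 i _ (e i j).2, h3 i' _ (e i' j).2]

/-! ### the triples with at least two vertices in a set -/

/-- triples with at least two vertices in `M` -/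
def lowB (M : Finset (Fin n)) : Hyp n :=
  (powersetCard 3 univ).filter (fun h => 2 ≤ (h ∩ M).card)

theorem mem_lowB {M h : Finset (Fin n)} : h ∈ lowB M ↔ h.card = 3 ∧ 2 ≤ (h ∩ M).card := by
  simp [lowB, mem_powersetCard]

theorem card_lowB_le (M : Finset (Fin n)) : (lowB M).card ≤ M.card * M.card * n := by
  classical
  have h1 : lowB M ⊆ ((M ×ˢ M) ×ˢ (univ : Finset (Fin n))).image
      (fun q => {q.1.1, q.1.2, q.2}) := by
    intro h hh
    obtain ⟨h3, h2⟩ := mem_lowB.1 hh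
    obtain ⟨a, ha, b, hb, hab⟩ := one_lt_card.1 (show 1 < (h ∩ M).card by omega)
    rw [mem_inter] at ha hb
    have hs : ({a, b} : Finset (Fin n)) ⊆ h := by
      intro z hz
      rw [mem_insert, mem_singleton] at hz
      rcases hz with rfl | rfl
      · exact ha.1
      · exact hb.1
    have hc : (h \ {a, b}).card = 1 := by
      rw [card_sdiff_of_subset hs, h3, card_pair hab]
    obtain ⟨c, hc'⟩ := card_eq_one.1 hc
    rw [mem_image]
    refine ⟨((a, b), c), by simp [ha.2, hb.2], ?_⟩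
    have h4 : h = {a, b} ∪ (h \ {a, b}) := (union_sdiff_of_subset hs).symm
    rw [hc'] at h4
    rw [h4]
    ext z
    simp only [mem_insert, mem_singleton, mem_union]
    tauto
  refine (card_le_card h1).trans (card_image_le.trans ?_)
  rw [card_product, card_product, card_univ, Fintype.card_fin]

theorem le_card_lowB (M : Finset (Fin n)) :
    M.card.choose 2 * (n - M.card) ≤ (lowB M).card := by
  classical
  have h1 : ((powersetCard 2 M) ×ˢ Mᶜ).image (fun q => insert q.2 q.1) ⊆ lowB M := by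
    intro h hh
    rw [mem_image] at hh
    obtain ⟨⟨p, c⟩, hq, rfl⟩ := hh
    rw [mem_product, mem_powersetCard, mem_compl] at hq
    obtain ⟨⟨hpM, hp2⟩, hc⟩ := hq
    have hcp : c ∉ p := fun h => hc (hpM h)
    rw [mem_lowB]
    constructor
    · rw [card_insert_of_notMem hcp, hp2]
    · rw [← hp2]
      refine card_le_card ?_
      intro z hz
      rw [mem_inter]
      exact ⟨mem_insert_of_mem hz, hpM hz⟩
  have h2 : Set.InjOn (fun q : Finset (Fin n) × Fin n => insert q.2 q.1)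
      ((powersetCard 2 M) ×ˢ Mᶜ : Finset (Finset (Fin n) × Fin n)) := by
    rintro ⟨p, c⟩ hq ⟨p', c'⟩ hq' heq
    rw [mem_coe, mem_product, mem_powersetCard, mem_compl] at hq hq'
    obtain ⟨⟨hpM, _⟩, hc⟩ := hq
    obtain ⟨⟨hpM', _⟩, hc'⟩ := hq'
    have heq' : insert c p = insert c' p' := heq
    have e1 : ∀ (q : Finset (Fin n)) (d : Fin n), q ⊆ M → d ∉ M → insert d q ∩ M = q := by
      intro q d hq hd
      ext z
      rw [mem_inter, mem_insert]
      constructor
      · rintro ⟨rfl | h, h'⟩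
        · exact absurd h' hd
        · exact h
      · intro h
        exact ⟨Or.inr h, hq h⟩
    have hpp : p = p' := by
      rw [← e1 p c hpM hc, ← e1 p' c' hpM' hc', heq']
    have hcc : c = c' := by
      have : c ∈ insert c' p' := by rw [← heq']; exact mem_insert_self _ _
      rcases mem_insert.1 this with h | h
      · exact h
      · exact absurd (hpM' h) hc
    rw [hpp, hcc]
  have h3 := card_le_card h1
  rw [card_image_of_injOn h2, card_product, card_powersetCard, card_compl, Fintype.card_fin] at h3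
  exact h3

/-! ### counting -/

theorem low_count_contains {α : Type*} [DecidableEq α] (T S : Finset α) (e : ℕ) (hS : S ⊆ T) :
    ((powersetCard e T).filter (fun H => S ⊆ H)).card ≤ (T.card - S.card).choose (e - S.card) := by
  rw [← card_sdiff_of_subset hS, ← card_powersetCard]
  refine card_le_card_of_injOn (fun H => H \ S) ?_ ?_
  · intro H hH
    rw [mem_coe, mem_filter, mem_powersetCard] at hH
    obtain ⟨⟨h1, h2⟩, h3⟩ := hH
    rw [mem_coe, mem_powersetCard]
    exact ⟨sdiff_subset_sdiff h1 Subset.rfl, by rw [card_sdiff_of_subset h3, h2]⟩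
  · intro H hH H' hH' heq
    rw [mem_coe, mem_filter, mem_powersetCard] at hH hH'
    have heq' : H \ S = H' \ S := heq
    rw [← union_sdiff_of_subset hH.2, ← union_sdiff_of_subset hH'.2, heq']

theorem low_count_bad {α : Type*} [DecidableEq α] (T B : Finset α) (e x : ℕ) (hx : x ≤ e)
    (hB : B ⊆ T) :
    ((powersetCard e T).filter (fun H => x ≤ (H ∩ B).card)).card ≤
      B.card.choose x * (T.card - x).choose (e - x) := by
  have h1 : (powersetCard e T).filter (fun H => x ≤ (H ∩ B).card) ⊆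
      (powersetCard x B).biUnion (fun S => (powersetCard e T).filter (fun H => S ⊆ H)) := by
    intro H hH
    rw [mem_filter] at hH
    obtain ⟨S, hS, hSc⟩ := exists_subset_card_eq hH.2
    rw [mem_biUnion]
    refine ⟨S, mem_powersetCard.2 ⟨hS.trans inter_subset_right, hSc⟩, ?_⟩
    rw [mem_filter]
    exact ⟨hH.1, hS.trans inter_subset_left⟩
  refine (card_le_card h1).trans ?_
  rw [← card_powersetCard x B]
  refine card_biUnion_le_card_mul _ _ _ ?_
  intro S hS
  rw [mem_powersetCard] at hS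
  have := low_count_contains T S e (hS.1.trans hB)
  rwa [hS.2] at this

theorem low_ratio {N e : ℕ} (he : e ≤ N) : ∀ x : ℕ, x ≤ e →
    ((N - x).choose (e - x) : ℝ) * (N : ℝ) ^ x ≤ (N.choose e : ℝ) * (e : ℝ) ^ x := by
  intro x
  induction x with
  | zero => intro _; simp
  | succ x ih =>
    intro hx
    have ih' := ih (by omega)
    obtain ⟨a, ha⟩ : ∃ a, e = x + 1 + a := ⟨e - (x + 1), by omega⟩
    obtain ⟨b, hb⟩ : ∃ b, N = x + 1 + b := ⟨N - (x + 1), by omega⟩
    have hab : a ≤ b := by omega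
    have e1 : N - (x + 1) = b := by omega
    have e2 : e - (x + 1) = a := by omega
    have e3 : N - x = b + 1 := by omega
    have e4 : e - x = a + 1 := by omega
    rw [e1, e2]
    rw [e3, e4] at ih'
    have h1 : ((b : ℝ) + 1) * (b.choose a : ℝ) = ((b + 1).choose (a + 1) : ℝ) * (a + 1) := by
      have := Nat.add_one_mul_choose_eq b a
      exact_mod_cast this
    have hNR : (N : ℝ) = x + 1 + b := by rw [hb]; push_cast; ring
    have heR : (e : ℝ) = x + 1 + a := by rw [ha]; push_cast; ring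
    have habR : (a : ℝ) ≤ b := by exact_mod_cast hab
    have hb0 : (0 : ℝ) < b + 1 := by positivity
    have hx0 : (0 : ℝ) ≤ x := Nat.cast_nonneg x
    -- (a+1) N ≤ e (b+1)
    have h2 : ((a : ℝ) + 1) * N ≤ e * (b + 1) := by
      rw [hNR, heR]; nlinarith
    have hpow : (0 : ℝ) ≤ (N : ℝ) ^ x := by positivity
    have hch : (0 : ℝ) ≤ ((b + 1).choose (a + 1) : ℝ) := Nat.cast_nonneg _
    have h3 : ((b : ℝ) + 1) * ((b.choose a : ℝ) * (N : ℝ) ^ (x + 1)) ≤
        ((b : ℝ) + 1) * ((N.choose e : ℝ) * (e : ℝ) ^ (x + 1)) := by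
      calc ((b : ℝ) + 1) * ((b.choose a : ℝ) * (N : ℝ) ^ (x + 1))
          = ((b + 1).choose (a + 1) : ℝ) * (N : ℝ) ^ x * (((a : ℝ) + 1) * N) := by
            rw [pow_succ, ← mul_assoc, ← mul_assoc, ← mul_assoc, h1]; ring
        _ ≤ ((b + 1).choose (a + 1) : ℝ) * (N : ℝ) ^ x * (e * (b + 1)) :=
            mul_le_mul_of_nonneg_left h2 (mul_nonneg hch hpow)
        _ ≤ (N.choose e : ℝ) * (e : ℝ) ^ x * (e * (b + 1)) :=
            mul_le_mul_of_nonneg_right ih' (by positivity)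
        _ = ((b : ℝ) + 1) * ((N.choose e : ℝ) * (e : ℝ) ^ (x + 1)) := by ring
    exact le_of_mul_le_mul_left h3 hb0

theorem low_choose_le {b x : ℕ} (hx : 1 ≤ x) :
    (b.choose x : ℝ) * (x : ℝ) ^ x ≤ ((b : ℝ) * Real.exp 1) ^ x := by
  have h1 : (b.choose x : ℝ) ≤ (b : ℝ) ^ x / (x.factorial : ℝ) := Nat.choose_le_pow_div x b
  have h2 : (x : ℝ) ^ x / (x.factorial : ℝ) ≤ Real.exp x :=
    Real.pow_div_factorial_le_exp (x : ℝ) (Nat.cast_nonneg x) x
  have hf : (0 : ℝ) < (x.factorial : ℝ) := by exact_mod_cast Nat.factorial_pos x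
  calc (b.choose x : ℝ) * (x : ℝ) ^ x ≤ (b : ℝ) ^ x / (x.factorial : ℝ) * (x : ℝ) ^ x :=
        mul_le_mul_of_nonneg_right h1 (by positivity)
    _ = (b : ℝ) ^ x * ((x : ℝ) ^ x / (x.factorial : ℝ)) := by ring
    _ ≤ (b : ℝ) ^ x * Real.exp x := mul_le_mul_of_nonneg_left h2 (by positivity)
    _ = ((b : ℝ) * Real.exp 1) ^ x := by
        rw [mul_pow, ← Real.exp_nat_mul, mul_one]

/-- there is a 3-graph with `e` edges meeting every `B(M')` in fewer than `x` edges -/
theorem low_exists {m e x b : ℕ} (hn : 3 ≤ n) (he : e ≤ n.choose 3) (hx : 1 ≤ x)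
    (hb : ∀ M : Finset (Fin n), M.card = m → (lowB M).card ≤ b)
    (h1 : 2 * Real.exp 1 * b * e ≤ x * (n.choose 3 : ℕ))
    (h2 : (n : ℝ) ^ m < 2 ^ x) :
    ∃ H : Hyp n, Is3 H ∧ H.card = e ∧
      ∀ M : Finset (Fin n), M.card = m → (H ∩ lowB M).card < x := by
  classical
  have hT : (powersetCard 3 (univ : Finset (Fin n))).card = n.choose 3 := by
    rw [card_powersetCard, card_univ, Fintype.card_fin]
  have hN1 : 1 ≤ n.choose 3 := Nat.choose_pos hn
  by_cases hxe : x ≤ e
  swap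
  · obtain ⟨H, hH, hHc⟩ := exists_subset_card_eq (show e ≤ (powersetCard 3
      (univ : Finset (Fin n))).card by rw [hT]; exact he)
    refine ⟨H, fun h hh => (mem_powersetCard.1 (hH hh)).2, hHc, fun M _ => ?_⟩
    have := card_le_card (inter_subset_left : H ∩ lowB M ⊆ H)
    omega
  by_contra hcon
  push Not at hcon
  have hcov : powersetCard e (powersetCard 3 (univ : Finset (Fin n))) ⊆
      (powersetCard m (univ : Finset (Fin n))).biUnion (fun M =>
        (powersetCard e (powersetCard 3 (univ : Finset (Fin n)))).filter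
          (fun H => x ≤ (H ∩ lowB M).card)) := by
    intro H hH
    have hH' := mem_powersetCard.1 hH
    obtain ⟨M, hM, hMx⟩ := hcon H (fun h hh => (mem_powersetCard.1 (hH'.1 hh)).2) hH'.2
    rw [mem_biUnion]
    exact ⟨M, mem_powersetCard.2 ⟨subset_univ _, hM⟩, mem_filter.2 ⟨hH, hMx⟩⟩
  have hcard := card_le_card hcov
  have hle : ((powersetCard m (univ : Finset (Fin n))).biUnion (fun M =>
        (powersetCard e (powersetCard 3 (univ : Finset (Fin n)))).filter
          (fun H => x ≤ (H ∩ lowB M).card))).card ≤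
      n ^ m * (b.choose x * (n.choose 3 - x).choose (e - x)) := by
    refine (card_biUnion_le_card_mul _ _ (b.choose x * (n.choose 3 - x).choose (e - x))
      ?_).trans ?_
    · intro M hM
      rw [mem_powersetCard] at hM
      have h3 := low_count_bad (powersetCard 3 (univ : Finset (Fin n))) (lowB M) e x hxe
        (filter_subset _ _)
      rw [hT] at h3
      refine h3.trans (Nat.mul_le_mul_right _ ?_)
      exact Nat.choose_le_choose x (hb M hM.2)
    · rw [card_powersetCard, card_univ, Fintype.card_fin]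
      exact Nat.mul_le_mul_right _ (Nat.choose_le_pow n m)
  rw [card_powersetCard, hT] at hcard
  have hfin := hcard.trans hle
  -- real arithmetic
  have hNpos : (0 : ℝ) < (n.choose 3 : ℕ) := by exact_mod_cast hN1
  have hxpos : (0 : ℝ) < x := by exact_mod_cast hx
  have hR : ((n.choose 3).choose e : ℝ) ≤
      (n : ℝ) ^ m * ((b.choose x : ℝ) * ((n.choose 3 - x).choose (e - x) : ℝ)) := by
    exact_mod_cast hfin
  have hpos : (0 : ℝ) < ((n.choose 3).choose e : ℝ) := by
    exact_mod_cast Nat.choose_pos he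
  have hA := low_ratio he x hxe
  have hC := low_choose_le (b := b) hx
  -- multiply by (x * N)^x
  have hprod : (b.choose x : ℝ) * ((n.choose 3 - x).choose (e - x) : ℝ) *
      ((x : ℝ) * (n.choose 3 : ℕ)) ^ x ≤
      ((n.choose 3).choose e : ℝ) * ((b : ℝ) * Real.exp 1 * e) ^ x := by
    have hexp : (0 : ℝ) ≤ ((b : ℝ) * Real.exp 1) ^ x := by positivity
    calc (b.choose x : ℝ) * ((n.choose 3 - x).choose (e - x) : ℝ) *
          ((x : ℝ) * (n.choose 3 : ℕ)) ^ x
        = ((b.choose x : ℝ) * (x : ℝ) ^ x) *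
          (((n.choose 3 - x).choose (e - x) : ℝ) * ((n.choose 3 : ℕ) : ℝ) ^ x) := by
          rw [mul_pow]; ring
      _ ≤ ((b : ℝ) * Real.exp 1) ^ x *
          (((n.choose 3).choose e : ℝ) * (e : ℝ) ^ x) :=
          mul_le_mul hC hA (by positivity) hexp
      _ = ((n.choose 3).choose e : ℝ) * ((b : ℝ) * Real.exp 1 * e) ^ x := by
          rw [mul_pow, mul_pow ((b : ℝ) * Real.exp 1)]; ring
  have hhalf : (2 : ℝ) ^ x * ((b : ℝ) * Real.exp 1 * e) ^ x ≤ ((x : ℝ) * (n.choose 3 : ℕ)) ^ x := by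
    rw [← mul_pow]
    refine pow_le_pow_left₀ (by positivity) ?_ x
    linarith
  have hXN : (0 : ℝ) < ((x : ℝ) * (n.choose 3 : ℕ)) ^ x := by positivity
  have h3 : ((n.choose 3).choose e : ℝ) * ((x : ℝ) * (n.choose 3 : ℕ)) ^ x * 2 ^ x ≤
      (n : ℝ) ^ m * (((n.choose 3).choose e : ℝ) * ((x : ℝ) * (n.choose 3 : ℕ)) ^ x) := by
    calc ((n.choose 3).choose e : ℝ) * ((x : ℝ) * (n.choose 3 : ℕ)) ^ x * 2 ^ x
        ≤ ((n : ℝ) ^ m * ((b.choose x : ℝ) * ((n.choose 3 - x).choose (e - x) : ℝ))) *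
          ((x : ℝ) * (n.choose 3 : ℕ)) ^ x * 2 ^ x := by
          refine mul_le_mul_of_nonneg_right (mul_le_mul_of_nonneg_right hR hXN.le) (by positivity)
      _ = (n : ℝ) ^ m * ((b.choose x : ℝ) * ((n.choose 3 - x).choose (e - x) : ℝ) *
          ((x : ℝ) * (n.choose 3 : ℕ)) ^ x) * 2 ^ x := by ring
      _ ≤ (n : ℝ) ^ m * (((n.choose 3).choose e : ℝ) * ((b : ℝ) * Real.exp 1 * e) ^ x) * 2 ^ x := by
          refine mul_le_mul_of_nonneg_right (mul_le_mul_of_nonneg_left hprod (by positivity))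
            (by positivity)
      _ = (n : ℝ) ^ m * ((n.choose 3).choose e : ℝ) *
          (2 ^ x * ((b : ℝ) * Real.exp 1 * e) ^ x) := by ring
      _ ≤ (n : ℝ) ^ m * ((n.choose 3).choose e : ℝ) * ((x : ℝ) * (n.choose 3 : ℕ)) ^ x :=
          mul_le_mul_of_nonneg_left hhalf (by positivity)
      _ = (n : ℝ) ^ m * (((n.choose 3).choose e : ℝ) * ((x : ℝ) * (n.choose 3 : ℕ)) ^ x) := by
          ring
  have hP : (0 : ℝ) < ((n.choose 3).choose e : ℝ) * ((x : ℝ) * (n.choose 3 : ℕ)) ^ x :=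
    mul_pos hpos hXN
  have h4 : ((n.choose 3).choose e : ℝ) * ((x : ℝ) * (n.choose 3 : ℕ)) ^ x * 2 ^ x ≤
      ((n.choose 3).choose e : ℝ) * ((x : ℝ) * (n.choose 3 : ℕ)) ^ x * (n : ℝ) ^ m := by
    rw [mul_comm _ ((n : ℝ) ^ m)]; exact h3
  have h5 := le_of_mul_le_mul_left h4 hP
  exact absurd h5 (not_le.2 h2)

/-! ### transfer -/

theorem low_common {m x : ℕ} {H : Hyp n} {M : Finset (Fin n)} (hM : M.card = m) (hm : m ≤ n)
    (hH : Is3 H) (hx : ∀ M' : Finset (Fin n), M'.card = m → (H ∩ lowB M').card < x)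
    {F : Hyp n} {f : Fin n → Fin n} (hF : F ⊆ H) (hf : Set.InjOn f (verts F))
    (hFB : ∀ h ∈ F, h.image f ∈ lowB M) : F.card < x := by
  classical
  have h1 : ((verts F).filter (fun v => f v ∈ M)).card ≤ m := by
    rw [← hM]
    refine card_le_card_of_injOn f ?_ ?_
    · intro v hv
      rw [mem_coe, mem_filter] at hv
      exact hv.2
    · intro v hv w hw hvw
      rw [mem_coe, mem_filter] at hv hw
      exact hf hv.1 hw.1 hvw
  obtain ⟨M', hsub, hM'⟩ := exists_superset_card_eq h1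
    (show m ≤ Fintype.card (Fin n) by rw [Fintype.card_fin]; exact hm)
  refine lt_of_le_of_lt (card_le_card ?_) (hx M' hM')
  intro h hh
  rw [mem_inter]
  refine ⟨hF hh, ?_⟩
  rw [mem_lowB]
  refine ⟨hH h (hF hh), ?_⟩
  have h2 := (mem_lowB.1 (hFB h hh)).2
  refine h2.trans ?_
  have h3 : h.image f ∩ M ⊆ (h ∩ M').image f := by
    intro w hw
    rw [mem_inter, mem_image] at hw
    obtain ⟨⟨v, hv, rfl⟩, hwM⟩ := hw
    rw [mem_image]
    refine ⟨v, mem_inter.2 ⟨hv, hsub ?_⟩, rfl⟩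
    rw [mem_filter]
    refine ⟨?_, hwM⟩
    rw [verts, mem_biUnion]
    exact ⟨h, hh, hv⟩
  exact (card_le_card h3).trans card_image_le

theorem low_dec {m x t : ℕ} {H : Hyp n} {M : Finset (Fin n)} (hM : M.card = m) (hm : m ≤ n)
    (hH : Is3 H) (hc : H.card = (lowB M).card)
    (hx : ∀ M' : Finset (Fin n), M'.card = m → (H ∩ lowB M').card < x)
    (ht : Suff 2 n 3 t) : (lowB M).card ≤ t * x := by
  classical
  have h2 : Is3 (lowB M) := fun h hh => (mem_lowB.1 hh).1
  obtain ⟨t', htt, E, hE, hI⟩ := ht ![H, lowB M] (by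
      intro i
      fin_cases i
      · exact hH
      · exact h2) (by
      intro i i'
      fin_cases i <;> fin_cases i' <;> simp [hc])
  have hE0 : univ.biUnion (E 0) = H := (hE 0).2
  have hE1 : univ.biUnion (E 1) = lowB M := (hE 1).2
  have hpart : ∀ j, (E 0 j).card ≤ x := by
    intro j
    obtain ⟨f, hf, himg⟩ := hI j 0 1
    refine le_of_lt (low_common hM hm hH hx (F := E 0 j) (f := f) ?_ hf ?_)
    · rw [← hE0]
      exact subset_biUnion_of_mem (E 0) (mem_univ j)
    · intro h hh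
      have h3 : h.image f ∈ E 1 j := by
        rw [← himg]
        exact mem_image.2 ⟨h, hh, rfl⟩
      rw [← hE1]
      exact mem_biUnion.2 ⟨j, mem_univ j, h3⟩
  have h3 : H.card ≤ t' * x := by
    rw [← hE0]
    refine (card_biUnion_le_card_mul _ _ x fun j _ => hpart j).trans ?_
    rw [card_univ, Fintype.card_fin]
  rw [← hc]
  exact h3.trans (Nat.mul_le_mul_right _ htt)

theorem low_main {m x : ℕ} (hn : 3 ≤ n) (hx : 1 ≤ x) (hm : m ≤ n)
    (h1 : 2 * Real.exp 1 * ((m : ℝ) * m * n) * ((m : ℝ) * m * n) ≤ x * (n.choose 3 : ℕ))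
    (h2 : (n : ℝ) ^ m < 2 ^ x) :
    m.choose 2 * (n - m) ≤ U 2 n 3 * x := by
  classical
  obtain ⟨M, _, hM⟩ := exists_subset_card_eq (show m ≤ (univ : Finset (Fin n)).card by
    rw [card_univ, Fintype.card_fin]; exact hm)
  have hb : ∀ M : Finset (Fin n), M.card = m → (lowB M).card ≤ m * m * n := by
    intro M hM
    have := card_lowB_le M
    rwa [hM] at this
  have he : (lowB M).card ≤ n.choose 3 := by
    have h3 := card_le_card (filter_subset (fun h => 2 ≤ (h ∩ M).card)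
      (powersetCard 3 (univ : Finset (Fin n))))
    rw [card_powersetCard, card_univ, Fintype.card_fin] at h3
    exact h3
  obtain ⟨H, hH, hHc, hHx⟩ := low_exists (n := n) (m := m) (e := (lowB M).card) (x := x)
    (b := m * m * n) hn he hx hb (by
      refine le_trans ?_ h1
      have h4 : ((lowB M).card : ℝ) ≤ (m : ℝ) * m * n := by exact_mod_cast hb M hM
      have h5 : (0 : ℝ) ≤ 2 * Real.exp 1 * ((m * m * n : ℕ) : ℝ) := by positivity
      have h6 : ((m * m * n : ℕ) : ℝ) = (m : ℝ) * m * n := by push_cast; ring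
      rw [h6] at h5 ⊢
      exact mul_le_mul_of_nonneg_left h4 h5) h2
  have h3 := le_card_lowB M
  rw [hM] at h3
  refine h3.trans ?_
  exact low_dec hM hm hH hHc hHx (Nat.sInf_mem (low_suff_nonempty n))

/-! ### numerics -/

theorem lower : Lower := by
  refine ⟨1 / 8008, by norm_num, 64, fun n hn => ?_⟩
  have hnR : (64 : ℝ) ≤ n := by exact_mod_cast hn
  have hn0 : (0 : ℝ) < n := by linarith
  obtain ⟨l, hl⟩ : ∃ l, Real.log (n : ℝ) = l := ⟨_, rfl⟩
  have hl1 : 1 ≤ l := by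
    rw [← hl, Real.le_log_iff_exp_le hn0]
    exact (Real.exp_one_lt_d9.le.trans (by norm_num)).trans hnR
  have hln : l ≤ n := by
    rw [← hl]
    exact (Real.log_le_sub_one_of_pos hn0).trans (by linarith)
  have hl0 : 0 < l := by linarith
  obtain ⟨r, hr⟩ : ∃ r : ℝ, r = ((n : ℝ) * l) ^ (1 / 3 : ℝ) := ⟨_, rfl⟩
  have hr0 : 0 < r := by rw [hr]; positivity
  have hr3 : r ^ 3 = n * l := by
    rw [hr, ← Real.rpow_natCast, ← Real.rpow_mul (by positivity)]
    norm_num
  have hr1 : 4 ≤ r := by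
    by_contra h
    push Not at h
    have h1 : r ^ 3 < 4 ^ 3 := pow_lt_pow_left₀ h hr0.le (by norm_num)
    rw [hr3] at h1
    nlinarith
  have h4r : 4 * r ≤ n := by
    by_contra h
    push Not at h
    have h1 : (n : ℝ) ^ 3 < (4 * r) ^ 3 := pow_lt_pow_left₀ h hn0.le (by norm_num)
    rw [mul_pow, hr3] at h1
    have h2 : (n : ℝ) ^ 3 ≥ 64 * (n * l) := by
      have : (n : ℝ) ^ 3 = n * (n * n) := by ring
      rw [this]
      have h3 : (64 : ℝ) * l ≤ n * n := by nlinarith
      nlinarith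
    nlinarith
  obtain ⟨m, hm⟩ : ∃ m : ℕ, m = ⌈r⌉₊ := ⟨_, rfl⟩
  have hmr : r ≤ m := by rw [hm]; exact Nat.le_ceil r
  have hm2r : (m : ℝ) ≤ 2 * r := by
    rw [hm]
    have := Nat.ceil_lt_add_one hr0.le
    linarith
  have hm0 : (0 : ℝ) < m := by linarith
  have hmn : (m : ℝ) ≤ n / 2 := by linarith
  have hmn' : m ≤ n := by
    have : (m : ℝ) ≤ n := by linarith
    exact_mod_cast this
  have hm3 : (m : ℝ) ^ 3 ≤ 8 * (n * l) := by
    calc (m : ℝ) ^ 3 ≤ (2 * r) ^ 3 := pow_le_pow_left₀ hm0.le hm2r 3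
      _ = 8 * (n * l) := by rw [mul_pow, hr3]; ring
  obtain ⟨x, hx⟩ : ∃ x : ℕ, x = ⌈1000 * (m * l)⌉₊ := ⟨_, rfl⟩
  have hml : 1 ≤ m * l := by nlinarith
  have hxlo : 1000 * (m * l) ≤ x := by rw [hx]; exact Nat.le_ceil _
  have hxhi : (x : ℝ) ≤ 1001 * (m * l) := by
    rw [hx]
    have := Nat.ceil_lt_add_one (show 0 ≤ 1000 * (m * l) by positivity)
    linarith
  have hx0 : (0 : ℝ) < x := by nlinarith
  have hx1 : 1 ≤ x := by exact_mod_cast hx0
  have hch : (n : ℝ) ^ 3 / 12 ≤ (n.choose 3 : ℕ) := by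
    have h1 : ((n.choose 3 : ℕ) : ℝ) = n * (n - 1) * (n - 2) / 6 := by
      have h2 := Nat.descFactorial_eq_factorial_mul_choose n 3
      have h3 : n.descFactorial 3 = n * (n - 1) * (n - 2) := by
        simp [Nat.descFactorial]; ring
      have h4 : Nat.factorial 3 = 6 := rfl
      rw [h3, h4] at h2
      have h5 : ((n * (n - 1) * (n - 2) : ℕ) : ℝ) = 6 * ((n.choose 3 : ℕ) : ℝ) := by
        exact_mod_cast h2
      rw [Nat.cast_mul, Nat.cast_mul, Nat.cast_sub (by omega), Nat.cast_sub (by omega)] at h5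
      push_cast at h5
      linarith
    rw [h1]
    have h2 : (n : ℝ) ^ 2 ≤ 2 * ((n - 1) * (n - 2)) := by nlinarith
    have h3 : (n : ℝ) ^ 3 / 12 = n * (n ^ 2) / 12 := by ring
    rw [h3]
    have h4 := mul_le_mul_of_nonneg_left h2 hn0.le
    linarith
  have key := low_main (n := n) (m := m) (x := x) (by omega) hx1 hmn' (by
    have he : Real.exp 1 ≤ 3 := Real.exp_one_lt_d9.le.trans (by norm_num)
    have h1 : 2 * Real.exp 1 * ((m : ℝ) * m * n) * ((m : ℝ) * m * n) ≤
        6 * ((m : ℝ) * m * n) * ((m : ℝ) * m * n) := by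
      have h2 : (0 : ℝ) ≤ ((m : ℝ) * m * n) * ((m : ℝ) * m * n) := by positivity
      nlinarith
    refine h1.trans ?_
    have h2 : (1000 * (m * l)) * ((n : ℝ) ^ 3 / 12) ≤ x * (n.choose 3 : ℕ) :=
      mul_le_mul hxlo hch (by positivity) hx0.le
    refine le_trans ?_ h2
    have h3 : 6 * ((m : ℝ) * m * n) * ((m : ℝ) * m * n) = 6 * (m : ℝ) ^ 3 * (m * n ^ 2) := by ring
    rw [h3]
    have h4 : 6 * (m : ℝ) ^ 3 * (m * n ^ 2) ≤ 6 * (8 * (n * l)) * (m * n ^ 2) := by
      refine mul_le_mul_of_nonneg_right ?_ (by positivity)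
      linarith
    refine h4.trans ?_
    have h5 : (0 : ℝ) ≤ m * l * n ^ 3 := by positivity
    nlinarith) (by
    have hlog2 : 0.6931471803 < Real.log 2 := Real.log_two_gt_d9
    have h1 : (n : ℝ) ^ m = Real.exp (m * l) := by
      rw [← hl, mul_comm, Real.exp_mul, Real.exp_log hn0, Real.rpow_natCast]
    have h2 : (2 : ℝ) ^ x = Real.exp (x * Real.log 2) := by
      rw [mul_comm, Real.exp_mul, Real.exp_log (by norm_num), Real.rpow_natCast]
    rw [h1, h2, Real.exp_lt_exp]
    nlinarith)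
  -- conclusion
  have hkey : ((m.choose 2 : ℕ) : ℝ) * ((n : ℝ) - m) ≤ (U 2 n 3 : ℝ) * x := by
    have h1 : ((m.choose 2 * (n - m) : ℕ) : ℝ) ≤ ((U 2 n 3 * x : ℕ) : ℝ) := by
      exact_mod_cast key
    rw [Nat.cast_mul, Nat.cast_mul, Nat.cast_sub hmn'] at h1
    exact h1
  have hc2 : ((m.choose 2 : ℕ) : ℝ) = m * (m - 1) / 2 := Nat.cast_choose_two ℝ m
  have h5 : (m : ℝ) ^ 2 * n / 8 ≤ (U 2 n 3 : ℝ) * x := by
    refine le_trans ?_ hkey
    rw [hc2]
    have h6 : (m : ℝ) ^ 2 / 4 ≤ m * (m - 1) / 2 := by nlinarith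
    have h7 : (n : ℝ) / 2 ≤ n - m := by linarith
    have h8 := mul_le_mul h6 h7 (by positivity) (by nlinarith)
    refine le_trans (le_of_eq ?_) h8
    ring
  have hU0 : (0 : ℝ) ≤ (U 2 n 3 : ℝ) := Nat.cast_nonneg _
  have h6 : (m : ℝ) ^ 2 * n / 8 ≤ (U 2 n 3 : ℝ) * (1001 * (m * l)) :=
    h5.trans (mul_le_mul_of_nonneg_left hxhi hU0)
  have h7 : (m : ℝ) * n / 8 ≤ (U 2 n 3 : ℝ) * (1001 * l) := by
    have e1 : (m : ℝ) ^ 2 * n / 8 = m * (m * n / 8) := by ring
    have e2 : (U 2 n 3 : ℝ) * (1001 * (m * l)) = m * ((U 2 n 3 : ℝ) * (1001 * l)) := by ring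
    rw [e1, e2] at h6
    exact le_of_mul_le_mul_left h6 hm0
  have h8 : r * n / 8 ≤ (U 2 n 3 : ℝ) * (1001 * l) := by
    refine le_trans ?_ h7
    have := mul_le_mul_of_nonneg_right hmr hn0.le
    linarith
  have h9 : (n : ℝ) ^ (4 / 3 : ℝ) * l ^ (-(2 / 3) : ℝ) = n * r / l := by
    rw [hr, Real.mul_rpow hn0.le hl0.le]
    have e1 : (n : ℝ) ^ (4 / 3 : ℝ) = n * (n : ℝ) ^ (1 / 3 : ℝ) := by
      nth_rewrite 2 [← Real.rpow_one (n : ℝ)]
      rw [← Real.rpow_add hn0]
      norm_num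
    have e2 : l ^ (-(2 / 3) : ℝ) = l ^ (1 / 3 : ℝ) / l := by
      nth_rewrite 3 [← Real.rpow_one l]
      rw [← Real.rpow_sub hl0]
      norm_num
    rw [e1, e2]
    ring
  rw [hl, mul_assoc, h9]
  rw [← mul_div_assoc, div_le_iff₀ hl0]
  nlinarith

end Ulam
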