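import Pool.Agent.Lib.Ulam.Defs

/-!
# The upper bound for `U 2 n 3` from the three regimes
-/

open Finset

namespace Ulam

variable {n : ℕ}

namespace Up

/-- a common decomposition of `H1` and `H2` into `t` parts -/
def Dec (H1 H2 : Hyp n) (t : ℕ) : Prop :=
  ∃ E1 E2 : Fin t → Hyp n, (∀ j j', j ≠ j' → Disjoint (E1 j) (E1 j')) ∧
    (∀ j j', j ≠ j' → Disjoint (E2 j) (E2 j')) ∧
    Finset.univ.biUnion E1 = H1 ∧ Finset.univ.biUnion E2 = H2 ∧ ∀ j, EIso (E1 j) (E2 j)

theorem subset_verts {F : Hyp n} {h : Finset (Fin n)} (hh : h ∈ F) : h ⊆ verts F := by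
  intro v hv
  exact Finset.mem_biUnion.2 ⟨h, hh, hv⟩

theorem EIso.refl' (F : Hyp n) : EIso F F := by
  refine ⟨id, Set.injOn_id _, ?_⟩
  ext h
  simp

theorem EIso.symm' {F F' : Hyp n} (h : EIso F F') : EIso F' F := by
  obtain ⟨f, hf, rfl⟩ := h
  classical
  rcases isEmpty_or_nonempty (Fin n) with hE | hE
  · refine ⟨id, Set.injOn_id _, ?_⟩
    ext h
    have : ∀ a : Finset (Fin n), a = ∅ := fun a => Finset.eq_empty_of_isEmpty a
    constructor
    · intro h1
      rw [Finset.mem_image] at h1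
      obtain ⟨a, ha, rfl⟩ := h1
      rw [Finset.mem_image] at ha
      obtain ⟨b, hb, rfl⟩ := ha
      rw [this (Finset.image id (Finset.image f b)), ← this b]
      exact hb
    · intro h1
      rw [Finset.mem_image]
      refine ⟨∅, ?_, ?_⟩
      · rw [Finset.mem_image]
        exact ⟨h, h1, this _⟩
      · rw [this h]
        rfl
  · refine ⟨Function.invFunOn f (verts F : Set (Fin n)), ?_, ?_⟩
    · intro a ha b hb hab
      have key : ∀ c ∈ (verts (F.image (fun h => h.image f)) : Set (Fin n)),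
          ∃ d ∈ (verts F : Set (Fin n)), f d = c := by
        intro c hc
        have hc' : c ∈ verts (F.image (fun h => h.image f)) := hc
        unfold verts at hc'
        rw [Finset.mem_biUnion] at hc'
        obtain ⟨h, hh, hch⟩ := hc'
        rw [Finset.mem_image] at hh
        obtain ⟨h0, hh0, rfl⟩ := hh
        have hch' : c ∈ h0.image f := hch
        rw [Finset.mem_image] at hch'
        obtain ⟨d, hd, rfl⟩ := hch'
        exact ⟨d, subset_verts hh0 hd, rfl⟩
      rw [← Function.invFunOn_eq (key a ha), ← Function.invFunOn_eq (key b hb), hab]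
    · rw [Finset.image_image]
      have : ∀ h ∈ F, ((fun h : Finset (Fin n) => h.image (Function.invFunOn f (verts F : Set (Fin n)))) ∘
          fun h => h.image f) h = id h := by
        intro h hh
        simp only [Function.comp, id]
        rw [Finset.image_image]
        have h2 : ∀ v ∈ h, (Function.invFunOn f (verts F : Set (Fin n)) ∘ f) v = id v := by
          intro v hv
          have hv' : v ∈ (verts F : Set (Fin n)) := subset_verts hh hv
          exact hf.leftInvOn_invFunOn hv'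
        rw [Finset.image_congr (fun v hv => h2 v hv), Finset.image_id]
      rw [Finset.image_congr (fun h hh => this h hh), Finset.image_id]

theorem Dec.zero : Dec (∅ : Hyp n) ∅ 0 := by
  refine ⟨fun _ => ∅, fun _ => ∅, ?_, ?_, ?_, ?_, ?_⟩
  · intro j; exact j.elim0
  · intro j; exact j.elim0
  · rfl
  · rfl
  · intro j; exact j.elim0

theorem Dec.step {H1 H2 F1 F2 : Hyp n} {t : ℕ} (h1 : F1 ⊆ H1) (h2 : F2 ⊆ H2) (hF : EIso F1 F2)
    (h : Dec (H1 \ F1) (H2 \ F2) t) : Dec H1 H2 (t + 1) := by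
  obtain ⟨E1, E2, d1, d2, u1, u2, hE⟩ := h
  have sub : ∀ {H F : Hyp n} {E : Fin t → Hyp n}, Finset.univ.biUnion E = H \ F → ∀ j,
      Disjoint F (E j) := by
    intro H F E hu j
    rw [Finset.disjoint_left]
    intro a ha haE
    have : a ∈ H \ F := by
      rw [← hu]
      exact Finset.mem_biUnion.2 ⟨j, Finset.mem_univ _, haE⟩
    exact (Finset.mem_sdiff.1 this).2 ha
  have dj : ∀ {H F : Hyp n} {E : Fin t → Hyp n}, Finset.univ.biUnion E = H \ F →
      (∀ j j', j ≠ j' → Disjoint (E j) (E j')) → ∀ j j' : Fin (t + 1), j ≠ j' →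
      Disjoint ((Fin.cons F E : Fin (t + 1) → Hyp n) j) ((Fin.cons F E : Fin (t + 1) → Hyp n) j') := by
    intro H F E hu hd j j'
    refine Fin.cases ?_ (fun i => ?_) j
    · refine Fin.cases ?_ (fun i' => ?_) j'
      · intro h; exact absurd rfl h
      · intro _
        rw [Fin.cons_zero, Fin.cons_succ]
        exact sub hu i'
    · refine Fin.cases ?_ (fun i' => ?_) j'
      · intro _
        rw [Fin.cons_zero, Fin.cons_succ]
        exact (sub hu i).symm
      · intro h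
        rw [Fin.cons_succ, Fin.cons_succ]
        exact hd i i' (fun h' => h (by rw [h']))
  have un : ∀ {H F : Hyp n} {E : Fin t → Hyp n}, F ⊆ H → Finset.univ.biUnion E = H \ F →
      Finset.univ.biUnion (Fin.cons F E : Fin (t + 1) → Hyp n) = H := by
    intro H F E hs hu
    ext a
    rw [Finset.mem_biUnion]
    constructor
    · rintro ⟨j, -, hj⟩
      revert hj
      refine Fin.cases ?_ (fun i => ?_) j
      · rw [Fin.cons_zero]
        exact fun h => hs h
      · rw [Fin.cons_succ]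
        intro h
        have : a ∈ H \ F := by
          rw [← hu]
          exact Finset.mem_biUnion.2 ⟨i, Finset.mem_univ _, h⟩
        exact (Finset.mem_sdiff.1 this).1
    · intro ha
      by_cases haF : a ∈ F
      · exact ⟨0, Finset.mem_univ _, by rw [Fin.cons_zero]; exact haF⟩
      · have : a ∈ H \ F := Finset.mem_sdiff.2 ⟨ha, haF⟩
        rw [← hu, Finset.mem_biUnion] at this
        obtain ⟨i, -, hi⟩ := this
        exact ⟨i.succ, Finset.mem_univ _, by rw [Fin.cons_succ]; exact hi⟩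
  refine ⟨Fin.cons F1 E1, Fin.cons F2 E2, dj u1 d1, dj u2 d2, un h1 u1, un h2 u2, ?_⟩
  intro j
  refine Fin.cases ?_ (fun i => ?_) j
  · rw [Fin.cons_zero, Fin.cons_zero]
    exact hF
  · rw [Fin.cons_succ, Fin.cons_succ]
    exact hE i

/-- `r` parts (a real bound) suffice for every pair of 3-graphs with `e` edges -/
def TR (n e : ℕ) (r : ℝ) : Prop := ∀ H1 H2 : Hyp n, Is3 H1 → Is3 H2 → H1.card = e → H2.card = e →
  ∃ t : ℕ, (t : ℝ) ≤ r ∧ Dec H1 H2 t

theorem TR.mono {e : ℕ} {r r' : ℝ} (h : TR n e r) (hr : r ≤ r') : TR n e r' := by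
  intro H1 H2 h1 h2 c1 c2
  obtain ⟨t, ht, hd⟩ := h H1 H2 h1 h2 c1 c2
  exact ⟨t, ht.trans hr, hd⟩

theorem TR.zero : TR n 0 0 := by
  intro H1 H2 _ _ c1 c2
  rw [Finset.card_eq_zero] at c1 c2
  subst c1 c2
  exact ⟨0, by simp, Dec.zero⟩

theorem com_step {H1 H2 : Hyp n} {s : ℕ} (h : Com H1 H2 s) : ∃ F1 F2 : Hyp n,
    F1 ⊆ H1 ∧ F2 ⊆ H2 ∧ EIso F1 F2 ∧ F1.card = s ∧ F2.card = s := by
  obtain ⟨F, f, hF, hs, hf, hi⟩ := h
  obtain ⟨F1, hF1, hc⟩ := Finset.exists_subset_card_eq hs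
  have hv : verts F1 ⊆ verts F := Finset.biUnion_subset_biUnion_of_subset_left _ hF1
  have hf1 : Set.InjOn f (verts F1 : Set (Fin n)) := hf.mono (by exact_mod_cast hv)
  refine ⟨F1, F1.image (fun h => h.image f), hF1.trans hF, ?_, ⟨f, hf1, rfl⟩, hc, ?_⟩
  · intro a ha
    rw [Finset.mem_image] at ha
    obtain ⟨b, hb, rfl⟩ := ha
    exact hi b (hF1 hb)
  · rw [Finset.card_image_of_injOn, hc]
    intro a ha b hb hab
    have ha' : (a : Set (Fin n)) ⊆ verts F1 := by exact_mod_cast subset_verts ha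
    have hb' : (b : Set (Fin n)) ⊆ verts F1 := by exact_mod_cast subset_verts hb
    have hab' : f '' (a : Set (Fin n)) = f '' (b : Set (Fin n)) := by
      have := congrArg (fun s : Finset (Fin n) => (s : Set (Fin n))) hab
      simpa only [Finset.coe_image] using this
    have := (hf1.image_eq_image_iff ha' hb').1 hab'
    exact_mod_cast this

theorem TR.step {e : ℕ} {r : ℝ} (h : ∀ H1 H2 : Hyp n, Is3 H1 → Is3 H2 → H1.card = e →
    H2.card = e → ∃ s, Com H1 H2 s ∧ TR n (e - s) (r - 1)) : TR n e r := by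
  intro H1 H2 h1 h2 c1 c2
  obtain ⟨s, hs, hT⟩ := h H1 H2 h1 h2 c1 c2
  obtain ⟨F1, F2, hF1, hF2, hI, k1, k2⟩ := com_step hs
  obtain ⟨t, ht, hd⟩ := hT (H1 \ F1) (H2 \ F2) (fun a ha => h1 a (Finset.mem_sdiff.1 ha).1)
    (fun a ha => h2 a (Finset.mem_sdiff.1 ha).1)
    (by rw [Finset.card_sdiff_of_subset hF1, c1, k1])
    (by rw [Finset.card_sdiff_of_subset hF2, c2, k2])
  refine ⟨t + 1, ?_, Dec.step hF1 hF2 hI hd⟩
  push_cast
  linarith

theorem phase (lo hi : ℕ → Prop) (Ta c0 : ℝ) (Psi : ℕ → ℝ)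
    (h0 : ∀ e, lo e → TR n e Ta)
    (hstep : ∀ e, ¬ lo e → hi e → ∀ H1 H2 : Hyp n, Is3 H1 → Is3 H2 → H1.card = e → H2.card = e →
      ∃ s, 1 ≤ s ∧ Com H1 H2 s ∧ (¬ lo (e - s) → hi (e - s) ∧ 1 ≤ Psi e - Psi (e - s)))
    (hPsi : ∀ e, ¬ lo e → hi e → c0 ≤ Psi e) (hlo0 : lo 0) :
    ∀ e, ¬ lo e → hi e → TR n e (Ta + 1 + Psi e - c0) := by
  intro e
  induction e using Nat.strong_induction_on with
  | _ e ih =>
    intro hlo hhi
    apply TR.step
    intro H1 H2 h1 h2 c1 c2
    obtain ⟨s, hs1, hs, hs'⟩ := hstep e hlo hhi H1 H2 h1 h2 c1 c2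
    refine ⟨s, hs, ?_⟩
    by_cases hl : lo (e - s)
    · apply (h0 _ hl).mono
      have := hPsi e hlo hhi
      linarith
    · obtain ⟨hh, hp⟩ := hs' hl
      have he : e ≠ 0 := by
        rintro rfl
        exact hlo hlo0
      apply (ih (e - s) (by omega) hl hh).mono
      linarith

theorem com_one {H1 H2 : Hyp n} (h1 : Is3 H1) (h2 : Is3 H2) (n1 : H1.Nonempty)
    (n2 : H2.Nonempty) : Com H1 H2 1 := by
  classical
  obtain ⟨a, ha⟩ := n1
  obtain ⟨b, hb⟩ := n2
  have hab : a.card = b.card := by rw [h1 a ha, h2 b hb]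
  let g := Finset.equivOfCardEq hab
  let f : Fin n → Fin n := fun v => if h : v ∈ a then (g ⟨v, h⟩ : Fin n) else v
  have hf : ∀ v (h : v ∈ a), f v = (g ⟨v, h⟩ : Fin n) := fun v h => dif_pos h
  have hv : verts ({a} : Hyp n) = a := by
    unfold verts
    rw [Finset.singleton_biUnion]
    rfl
  refine ⟨{a}, f, Finset.singleton_subset_iff.2 ha, by simp, ?_, ?_⟩
  · rw [hv]
    intro v hv w hw hvw
    rw [hf v hv, hf w hw] at hvw
    have := g.injective (Subtype.ext hvw)
    exact congrArg Subtype.val this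
  · intro h hh
    rw [Finset.mem_singleton] at hh
    subst hh
    have : h.image f = b := by
      ext w
      rw [Finset.mem_image]
      constructor
      · rintro ⟨v, hv, rfl⟩
        rw [hf v hv]
        exact (g ⟨v, hv⟩).2
      · intro hw
        refine ⟨(g.symm ⟨w, hw⟩ : Fin n), (g.symm ⟨w, hw⟩).2, ?_⟩
        rw [hf _ (g.symm ⟨w, hw⟩).2]
        simp
    rw [this]
    exact hb

theorem suff_of_TR {r : ℝ} {t : ℕ} (h : ∀ e, TR n e r) (ht : r < t + 1) : Suff 2 n 3 t := by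
  intro H h3 hc
  obtain ⟨t', ht', E1, E2, d1, d2, u1, u2, hE⟩ := h (H 0).card (H 0) (H 1) (h3 0) (h3 1) rfl (hc 1 0)
  refine ⟨t', ?_, fun i => if i = 0 then E1 else E2, ?_, ?_⟩
  · have : (t' : ℝ) < t + 1 := lt_of_le_of_lt ht' ht
    have h2 : t' < t + 1 := by exact_mod_cast this
    omega
  · intro i
    fin_cases i
    · exact ⟨d1, u1⟩
    · exact ⟨d2, u2⟩
  · intro j i i'
    fin_cases i <;> fin_cases i'
    · exact EIso.refl' _
    · exact hE j
    · exact EIso.symm' (hE j)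
    · exact EIso.refl' _


/-- phase B: sunflowers; `6 n e ≤ M ^ 2` for the largest `e` considered -/
theorem phaseB (hB : ComB) (hn : 1 ≤ n) (e : ℕ) : TR n e (1 + 4 * Real.sqrt (6 * n * e)) := by
  have hn' : (0 : ℝ) < n := by exact_mod_cast hn
  rcases Nat.eq_zero_or_pos e with rfl | hepos
  · apply TR.zero.mono
    positivity
  have := phase (n := n) (fun e => e = 0) (fun _ => True) 0 0 (fun e => 4 * Real.sqrt (6 * n * e))
    (fun e he => by subst he; exact TR.zero) ?_ (fun e _ _ => by positivity) rfl e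
    (by omega) trivial
  · apply this.mono
    linarith
  intro e he _ H1 H2 h1 h2 c1 c2
  have hepos : 1 ≤ e := by omega
  have he' : (1 : ℝ) ≤ e := by exact_mod_cast hepos
  -- the main estimate
  have main : ∀ s : ℕ, 1 ≤ s → s < e → Real.sqrt (e / (6 * n)) ≤ 2 * s →
      1 ≤ 4 * Real.sqrt (6 * n * e) - 4 * Real.sqrt (6 * n * ((e - s : ℕ) : ℝ)) := by
    intro s hs1 hse hs
    have hs1' : (1 : ℝ) ≤ s := by exact_mod_cast hs1
    have hse' : (s : ℝ) < e := by exact_mod_cast hse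
    rw [Nat.cast_sub hse.le]
    set A := Real.sqrt (6 * n * e) with hA
    set B := Real.sqrt (6 * n * ((e : ℝ) - s)) with hBd
    have hA2 : A ^ 2 = 6 * n * e := Real.sq_sqrt (by positivity)
    have hB2 : B ^ 2 = 6 * n * ((e : ℝ) - s) := Real.sq_sqrt (by
      apply mul_nonneg (by positivity) (by linarith))
    have hA0 : 0 < A := Real.sqrt_pos.2 (by positivity)
    have hB0 : 0 ≤ B := Real.sqrt_nonneg _
    have hBA : B ≤ A := Real.sqrt_le_sqrt (by
      apply mul_le_mul_of_nonneg_left (by linarith) (by positivity))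
    -- A = 6 n y
    have hy : A = 6 * n * Real.sqrt (e / (6 * n)) := by
      rw [hA]
      have : (6 * n * e : ℝ) = (6 * n) ^ 2 * (e / (6 * n)) := by
        field_simp
      rw [this, Real.sqrt_mul (by positivity), Real.sqrt_sq (by positivity)]
    have h3 : A ≤ 12 * n * s := by
      rw [hy]
      have : (0 : ℝ) ≤ 6 * n := by positivity
      nlinarith [mul_le_mul_of_nonneg_left hs this]
    -- (A - B)(A + B) = 6 n s
    have h4 : (A - B) * (A + B) = 6 * n * s := by
      have : (A - B) * (A + B) = A ^ 2 - B ^ 2 := by ring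
      rw [this, hA2, hB2]
      ring
    have h5 : 6 * n * s ≤ (A - B) * (2 * A) := by
      rw [← h4]
      apply mul_le_mul_of_nonneg_left _ (by linarith)
      linarith
    by_contra hcon
    push Not at hcon
    have h6 : (A - B) * (2 * A) < (1 / 4) * (2 * A) := by
      apply mul_lt_mul_of_pos_right _ (by positivity)
      linarith
    nlinarith
  by_cases hy : Real.sqrt (e / (6 * n)) ≤ 1
  · refine ⟨1, le_refl _, com_one h1 h2 (Finset.card_pos.1 (by omega))
      (Finset.card_pos.1 (by omega)), fun hne => ⟨trivial, ?_⟩⟩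
    have := main 1 le_rfl (by omega) (by push_cast; linarith)
    exact this
  · push Not at hy
    set y := Real.sqrt (e / (6 * n)) with hyd
    have hy0 : 0 < y := by linarith
    have hceil : 2 ≤ ⌈y⌉₊ := by
      have : 1 < ⌈y⌉₊ := Nat.lt_ceil.2 (by simpa using hy)
      omega
    have hs1 : 1 ≤ ⌈y⌉₊ - 1 := by omega
    have hlt : ((⌈y⌉₊ - 1 : ℕ) : ℝ) < y := by
      apply Nat.lt_ceil.1
      omega
    have hge : y ≤ ((⌈y⌉₊ - 1 : ℕ) : ℝ) + 1 := by
      have := Nat.le_ceil y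
      rw [Nat.cast_sub (by omega)]
      push_cast
      linarith
    have hsR : (1 : ℝ) ≤ ((⌈y⌉₊ - 1 : ℕ) : ℝ) := by exact_mod_cast hs1
    refine ⟨⌈y⌉₊ - 1, hs1, hB n e _ H1 H2 h1 h2 c1 c2 ?_, fun hne => ⟨trivial, ?_⟩⟩
    · have hy2 : y ^ 2 = e / (6 * n) := Real.sq_sqrt (by positivity)
      have h7 : (6 * ((⌈y⌉₊ - 1 : ℕ) : ℝ) ^ 2 * n) < e := by
        have h8 : ((⌈y⌉₊ - 1 : ℕ) : ℝ) ^ 2 < y ^ 2 := by
          apply pow_lt_pow_left₀ hlt (by positivity) (by norm_num)
        rw [hy2, lt_div_iff₀ (by positivity)] at h8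
        linarith
      exact_mod_cast h7
    · exact main _ hs1 (by omega) (by linarith)

/-- the window: `s ≥ c E ^ (9/8) e ^ (7/8) / n ^ 3` -/
theorem stepC {c E N : ℝ} (hc : 0 < c) (hE : 0 < E) (hN : 0 < N) {e s : ℕ} (hs : s < e)
    (h : c * ((E / e) ^ (1 / 8 : ℝ)) ^ 9 * (e : ℝ) ^ 2 / N ≤ s) :
    1 ≤ 8 * N / (c * E ^ (9 / 8 : ℝ)) * (e : ℝ) ^ (1 / 8 : ℝ) -
      8 * N / (c * E ^ (9 / 8 : ℝ)) * ((e - s : ℕ) : ℝ) ^ (1 / 8 : ℝ) := by
  have hepos : (0 : ℝ) < e := by
    have : 0 < e := by omega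
    exact_mod_cast this
  have hse : (s : ℝ) < e := by exact_mod_cast hs
  have hEe : 0 < E / e := by positivity
  -- Bernoulli
  have h1 : ((e - s : ℕ) : ℝ) ^ (1 / 8 : ℝ) ≤
      (e : ℝ) ^ (1 / 8 : ℝ) * (1 - (1 / 8) * (s / e)) := by
    rw [Nat.cast_sub hs.le]
    have h2 : (e : ℝ) - s = e * (1 + (-(s / e))) := by
      field_simp
      ring
    rw [h2, Real.mul_rpow hepos.le]
    · apply mul_le_mul_of_nonneg_left _ (by positivity)
      have := _root_.rpow_one_add_le_one_add_mul_self (s := -((s : ℝ) / e)) (by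
        rw [neg_le_neg_iff, div_le_one hepos]
        exact hse.le) (p := 1 / 8) (by norm_num) (by norm_num)
      linarith
    · have : (s : ℝ) / e ≤ 1 := by
        rw [div_le_one hepos]
        exact hse.le
      linarith
  -- rewrite the lower bound for `s`
  have h3 : ((E / e) ^ (1 / 8 : ℝ)) ^ 9 = E ^ (9 / 8 : ℝ) / (e : ℝ) ^ (9 / 8 : ℝ) := by
    rw [← Real.rpow_natCast, ← Real.rpow_mul hEe.le, ← Real.div_rpow hE.le hepos.le]
    norm_num
  have h4 : (e : ℝ) ^ (1 / 8 : ℝ) * (e : ℝ) = (e : ℝ) ^ (9 / 8 : ℝ) := by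
    nth_rewrite 2 [← Real.rpow_one (e : ℝ)]
    rw [← Real.rpow_add hepos]
    norm_num
  set u := (e : ℝ) ^ (1 / 8 : ℝ) with hu
  have hu0 : 0 < u := by positivity
  set V := E ^ (9 / 8 : ℝ) with hV
  have hV0 : 0 < V := by positivity
  rw [h3, ← h4] at h
  have h5 : c * V * e ≤ s * N * u := by
    rw [div_le_iff₀ hN] at h
    have h6 : c * (V / (u * e)) * (e : ℝ) ^ 2 = c * V * e / u := by
      field_simp
    rw [h6, div_le_iff₀ hu0] at h
    linarith
  set B := 8 * N / (c * V) with hBd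
  have hB0 : 0 < B := by positivity
  have h7 : B * ((e - s : ℕ) : ℝ) ^ (1 / 8 : ℝ) ≤ B * (u * (1 - (1 / 8) * (s / e))) :=
    mul_le_mul_of_nonneg_left h1 hB0.le
  have h8 : B * (u * (1 - (1 / 8) * (s / e))) = B * u - (s * N * u) / (c * V * e) := by
    rw [hBd]
    field_simp
  have h9 : 1 ≤ (s * N * u) / (c * V * e) := by
    rw [le_div_iff₀ (by positivity)]
    linarith
  linarith

theorem stepA {N : ℝ} (hN : 0 < N) {e s : ℕ} (hs : s < e) (h : (e : ℝ) ^ 2 ≤ s * N) :
    1 ≤ -(N / e) - -(N / ((e - s : ℕ) : ℝ)) := by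
  have hepos : (0 : ℝ) < e := by
    have : 0 < e := by omega
    exact_mod_cast this
  have hse : (s : ℝ) < e := by exact_mod_cast hs
  have hes : (0 : ℝ) < e - s := by linarith
  rw [Nat.cast_sub hs.le]
  have : -(N / (e : ℝ)) - -(N / ((e : ℝ) - s)) = s * N / (e * (e - s)) := by
    field_simp
    ring
  rw [this, le_div_iff₀ (by positivity)]
  have hs0 : (0 : ℝ) ≤ s := by positivity
  nlinarith

end Up

open Up

theorem upper_of (hA : ComA) (hB : ComB) (hC : ComC) : Upper := by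
  obtain ⟨c, hc, n0, hC⟩ := hC
  refine ⟨10 + 4 / c + 43 + 3, by positivity, max n0 3, ?_⟩
  intro n hn
  have hn0 : n0 ≤ n := le_trans (le_max_left _ _) hn
  have hn3 : 3 ≤ n := le_trans (le_max_right _ _) hn
  have hnR : (3 : ℝ) ≤ n := by exact_mod_cast hn3
  have hnpos : (0 : ℝ) < n := by linarith
  set l := Real.log n with hl
  have hl1 : 1 ≤ l := by
    rw [hl, Real.le_log_iff_exp_le hnpos]
    exact le_trans (le_of_lt Real.exp_one_lt_d9) (by norm_num; linarith)
  have hl0 : 0 < l := by linarith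
  have hln : l ≤ n := by
    rw [hl]
    exact Real.log_le_self hnpos.le
  set M : ℝ := (n : ℝ) ^ (4 / 3 : ℝ) * l ^ (-(2 / 3) : ℝ) with hM
  set E : ℝ := l ^ (2 / 3 : ℝ) * (n : ℝ) ^ (5 / 3 : ℝ) with hE
  have hM0 : 0 < M := by positivity
  have hE0 : 0 < E := by positivity
  have hM1 : 1 ≤ M := by
    have h1 : (n : ℝ) ^ (-(2 / 3) : ℝ) ≤ l ^ (-(2 / 3) : ℝ) := by
      apply Real.rpow_le_rpow_of_nonpos hl0 hln (by norm_num)
    have h2 : (n : ℝ) ^ (4 / 3 : ℝ) * (n : ℝ) ^ (-(2 / 3) : ℝ) = (n : ℝ) ^ (2 / 3 : ℝ) := by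
      rw [← Real.rpow_add hnpos]
      norm_num
    have h3 : 1 ≤ (n : ℝ) ^ (2 / 3 : ℝ) := Real.one_le_rpow (by linarith) (by norm_num)
    calc (1 : ℝ) ≤ (n : ℝ) ^ (2 / 3 : ℝ) := h3
      _ = (n : ℝ) ^ (4 / 3 : ℝ) * (n : ℝ) ^ (-(2 / 3) : ℝ) := h2.symm
      _ ≤ M := mul_le_mul_of_nonneg_left h1 (by positivity)
  -- `n ^ 3 = M E`
  have hME : (n : ℝ) ^ 3 = M * E := by
    have h1 : M * E = ((n : ℝ) ^ (4 / 3 : ℝ) * (n : ℝ) ^ (5 / 3 : ℝ)) *
        (l ^ (-(2 / 3) : ℝ) * l ^ (2 / 3 : ℝ)) := by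
      rw [hM, hE]
      ring
    rw [h1, ← Real.rpow_add hnpos, ← Real.rpow_add hl0]
    norm_num
  -- `n E = M ^ 2 l ^ 2`
  have hnE : (n : ℝ) * E = M ^ 2 * l ^ 2 := by
    have h1 : M ^ 2 * l ^ 2 = ((n : ℝ) ^ (4 / 3 : ℝ) * (n : ℝ) ^ (4 / 3 : ℝ)) *
        (l ^ (-(2 / 3) : ℝ) * l ^ (-(2 / 3) : ℝ) * l ^ (2 : ℝ)) := by
      rw [hM]
      rw [Real.rpow_two]
      ring
    have h2 : (n : ℝ) * E = (n : ℝ) ^ (1 : ℝ) * (n : ℝ) ^ (5 / 3 : ℝ) * l ^ (2 / 3 : ℝ) := by
      rw [hE, Real.rpow_one]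
      ring
    rw [h1, h2, ← Real.rpow_add hnpos, ← Real.rpow_add hnpos, ← Real.rpow_add hl0,
      ← Real.rpow_add hl0]
    norm_num
  -- phase B
  have tB : ∀ e : ℕ, (e : ℝ) < E / l ^ 2 → TR n e (1 + 10 * M) := by
    intro e he
    apply (phaseB hB (by omega) e).mono
    have h1 : Real.sqrt (6 * n * e) ≤ (5 / 2) * M := by
      apply Real.sqrt_le_iff.2
      refine ⟨by positivity, ?_⟩
      have h2 : (n : ℝ) * e ≤ M ^ 2 := by
        have h3 : (n : ℝ) * e ≤ n * (E / l ^ 2) := mul_le_mul_of_nonneg_left he.le hnpos.le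
        have h4 : (n : ℝ) * (E / l ^ 2) = M ^ 2 := by
          rw [← mul_div_assoc, hnE]
          field_simp
        linarith
      nlinarith [sq_nonneg M]
    linarith
  -- phase C
  set B := 8 * (n : ℝ) ^ 3 / (c * E ^ (9 / 8 : ℝ)) with hBd
  have hB0 : 0 < B := by positivity
  have hBE : B * (E / 256) ^ (1 / 8 : ℝ) = 4 / c * M := by
    have h1 : (E / 256) ^ (1 / 8 : ℝ) = E ^ (1 / 8 : ℝ) / 2 := by
      rw [Real.div_rpow hE0.le (by norm_num)]
      congr 1
      have : (256 : ℝ) = 2 ^ (8 : ℝ) := by norm_num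
      rw [this, ← Real.rpow_mul (by norm_num)]
      norm_num
    have h2 : E ^ (9 / 8 : ℝ) = E ^ (1 / 8 : ℝ) * E := by
      nth_rewrite 3 [← Real.rpow_one E]
      rw [← Real.rpow_add hE0]
      norm_num
    rw [hBd, h1, h2, hME]
    have h3 : 0 < E ^ (1 / 8 : ℝ) := by positivity
    field_simp
    norm_num
  have tC : ∀ e : ℕ, (e : ℝ) ≤ E / 256 → TR n e (1 + 10 * M + 1 + 4 / c * M) := by
    intro e he
    by_cases hlo : (e : ℝ) < E / l ^ 2
    · apply (tB e hlo).mono
      have : 0 < 4 / c * M := by positivity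
      linarith
    have := phase (n := n) (fun e => (e : ℝ) < E / l ^ 2) (fun e => (e : ℝ) ≤ E / 256)
      (1 + 10 * M) 0 (fun e => B * (e : ℝ) ^ (1 / 8 : ℝ)) tB ?_ (fun e _ _ => by positivity)
      (by
        show ((0 : ℕ) : ℝ) < E / l ^ 2
        rw [Nat.cast_zero]
        positivity) e hlo he
    · apply this.mono
      have h1 : B * (e : ℝ) ^ (1 / 8 : ℝ) ≤ B * (E / 256) ^ (1 / 8 : ℝ) := by
        apply mul_le_mul_of_nonneg_left _ hB0.le
        apply Real.rpow_le_rpow (by positivity) he (by norm_num)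
      rw [hBE] at h1
      linarith
    intro e hlo he H1 H2 h1 h2 c1 c2
    have hepos : (0 : ℝ) < e := by
      by_contra hcon
      push Not at hcon
      exact hlo (lt_of_le_of_lt hcon (by positivity))
    have hepos' : 1 ≤ e := by
      have : 0 < e := by exact_mod_cast hepos
      omega
    have hlo' : E / l ^ 2 ≤ e := not_lt.1 hlo
    have hwin : Win n e := by
      refine ⟨hepos', ?_, ?_⟩
      · unfold Kp
        rw [le_div_iff₀ hepos]
        rw [le_div_iff₀ (by norm_num)] at he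
        linarith
      · unfold Kp
        rw [div_le_iff₀ hepos]
        rw [div_le_iff₀ (by positivity)] at hlo'
        linarith
    obtain ⟨s, hs, hcom⟩ := hC n hn0 e hwin H1 H2 h1 h2 c1 c2
    have htg : tg n e = ((E / e) ^ (1 / 8 : ℝ)) ^ 9 * (e : ℝ) ^ 2 / (n : ℝ) ^ 3 := rfl
    have htg0 : 0 < tg n e := by
      rw [htg]
      positivity
    have hs1 : 1 ≤ s := by
      have h3 : (0 : ℝ) < s := lt_of_lt_of_le (by positivity) hs
      have : 0 < s := by exact_mod_cast h3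
      omega
    have hsle : s ≤ e := by
      obtain ⟨F1, F2, hF1, -, -, k1, -⟩ := com_step hcom
      rw [← k1, ← c1]
      exact Finset.card_le_card hF1
    refine ⟨s, hs1, hcom, fun hes => ⟨?_, ?_⟩⟩
    · have : ((e - s : ℕ) : ℝ) ≤ e := by exact_mod_cast Nat.sub_le e s
      exact this.trans he
    · have hlt : s < e := by
        rcases Nat.lt_or_ge s e with h | h
        · exact h
        · exfalso
          apply hes
          rw [Nat.sub_eq_zero_of_le h, Nat.cast_zero]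
          positivity
      apply stepC hc hE0 (by positivity) hlt
      rw [htg] at hs
      have h3 : c * ((E / e) ^ (1 / 8 : ℝ)) ^ 9 * (e : ℝ) ^ 2 / ((n : ℝ) ^ 3)
          = c * (((E / e) ^ (1 / 8 : ℝ)) ^ 9 * (e : ℝ) ^ 2 / ((n : ℝ) ^ 3)) := by ring
      rw [h3]
      exact hs
  -- phase A
  have tA : ∀ e : ℕ, TR n e (1 + 10 * M + 1 + 4 / c * M + 1 + 43 * M) := by
    intro e
    by_cases hlo : (e : ℝ) ≤ E / 256
    · apply (tC e hlo).mono
      linarith
    have := phase (n := n) (fun e => (e : ℝ) ≤ E / 256) (fun _ => True)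
      (1 + 10 * M + 1 + 4 / c * M) (-((n : ℝ) ^ 3 / 6 / (E / 256)))
      (fun e => -((n : ℝ) ^ 3 / 6 / (e : ℝ))) tC ?_ ?_
      (by
        show ((0 : ℕ) : ℝ) ≤ E / 256
        rw [Nat.cast_zero]
        positivity) e hlo trivial
    · apply this.mono
      have h1 : (n : ℝ) ^ 3 / 6 / (E / 256) = 256 / 6 * M := by
        rw [hME]
        field_simp
      have h2 : 0 ≤ (n : ℝ) ^ 3 / 6 / (e : ℝ) := by positivity
      rw [h1]
      linarith
    · intro e he _ H1 H2 h1 h2 c1 c2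
      have hlo' : E / 256 < e := not_le.1 he
      have hepos : (0 : ℝ) < e := lt_trans (by positivity) hlo'
      obtain ⟨s, hcom, hs⟩ := hA n e H1 H2 h1 h2 c1 c2
      have hch : ((n.choose 3 : ℕ) : ℝ) ≤ (n : ℝ) ^ 3 / 6 := by
        have := Nat.choose_le_pow_div (α := ℝ) 3 n
        simpa [Nat.factorial] using this
      have hs' : (e : ℝ) ^ 2 ≤ s * ((n : ℝ) ^ 3 / 6) :=
        hs.trans (mul_le_mul_of_nonneg_left hch (by positivity))
      have hs1 : 1 ≤ s := by
        rcases Nat.eq_zero_or_pos s with h | h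
        · exfalso
          rw [h, Nat.cast_zero, zero_mul] at hs'
          have : 0 < (e : ℝ) ^ 2 := by positivity
          linarith
        · exact h
      refine ⟨s, hs1, hcom, fun hes => ⟨trivial, ?_⟩⟩
      have hlt : s < e := by
        rcases Nat.lt_or_ge s e with h | h
        · exact h
        · exfalso
          apply hes
          rw [Nat.sub_eq_zero_of_le h, Nat.cast_zero]
          positivity
      exact stepA (by positivity) hlt hs'
    · intro e he _
      have hlo' : E / 256 < e := not_le.1 he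
      apply neg_le_neg
      apply div_le_div_of_nonneg_left (by positivity) (by positivity) hlo'.le
  -- conclusion
  set R := (10 + 4 / c + 43 + 3) * M with hR
  have hR0 : 0 ≤ R := by positivity
  have tAll : ∀ e : ℕ, TR n e R := by
    intro e
    apply (tA e).mono
    rw [hR]
    nlinarith
  have hS : Suff 2 n 3 ⌊R⌋₊ := suff_of_TR tAll (Nat.lt_floor_add_one R)
  have hU : U 2 n 3 ≤ ⌊R⌋₊ := Nat.sInf_le hS
  calc (U 2 n 3 : ℝ) ≤ (⌊R⌋₊ : ℝ) := by exact_mod_cast hU
    _ ≤ R := Nat.floor_le hR0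
    _ = (10 + 4 / c + 43 + 3) * (n : ℝ) ^ (4 / 3 : ℝ) * l ^ (-(2 / 3) : ℝ) := by
      rw [hR, hM]
      ring

end Ulam
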